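import Mathlib

/-!
# Band-limited Schwartz functions
-/

set_option autoImplicit false

namespace Pool.Agent.Helper47.Mimic

open MeasureTheory Filter Topology SchwartzMap FourierTransform LineDeriv

/-- `g` is the inverse Fourier transform of a Schwartz function vanishing outside `[-r, r]`. -/
def IsBL (r : ℝ) (g : ℝ → ℂ) : Prop :=
  ∃ Φ : SchwartzMap ℝ ℂ, (∀ ξ, r < |ξ| → Φ ξ = 0) ∧ ∀ x, g x = (𝓕⁻ Φ : SchwartzMap ℝ ℂ) x

lemma finv_apply (Φ : SchwartzMap ℝ ℂ) (x : ℝ) :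
    (𝓕⁻ Φ : SchwartzMap ℝ ℂ) x = ∫ ξ : ℝ, Complex.exp (2 * Real.pi * (ξ * x) * Complex.I) * Φ ξ := by
  rw [fourierInv_coe, Real.fourierInv_eq']
  congr 1
  ext ξ
  rw [smul_eq_mul]
  congr 2
  simp
  ring

lemma IsBL.mono {r s : ℝ} {g : ℝ → ℂ} (h : IsBL r g) (hrs : r ≤ s) : IsBL s g := by
  obtain ⟨Φ, h1, h2⟩ := h
  exact ⟨Φ, fun ξ hξ => h1 ξ (lt_of_le_of_lt hrs hξ), h2⟩

lemma IsBL.add {r : ℝ} {g h : ℝ → ℂ} (hg : IsBL r g) (hh : IsBL r h) :
    IsBL r (fun x => g x + h x) := by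
  obtain ⟨Φ, h1, h2⟩ := hg
  obtain ⟨Ψ, h3, h4⟩ := hh
  refine ⟨Φ + Ψ, fun ξ hξ => ?_, fun x => ?_⟩
  · rw [_root_.add_apply, h1 ξ hξ, h3 ξ hξ, add_zero]
  · beta_reduce
    rw [h2, h4, FourierTransform.fourierInv_add, _root_.add_apply]

lemma IsBL.const_mul {r : ℝ} {g : ℝ → ℂ} (hg : IsBL r g) (c : ℂ) :
    IsBL r (fun x => c * g x) := by
  obtain ⟨Φ, h1, h2⟩ := hg
  refine ⟨c • Φ, fun ξ hξ => ?_, fun x => ?_⟩
  · rw [_root_.smul_apply, h1 ξ hξ, smul_zero]
  · beta_reduce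
    rw [h2, FourierTransform.fourierInv_smul, _root_.smul_apply, smul_eq_mul]

lemma IsBL.exp_mul {r : ℝ} {g : ℝ → ℂ} (hg : IsBL r g) (ω : ℝ) :
    IsBL (r + |ω|) (fun x => Complex.exp (2 * Real.pi * (ω * x) * Complex.I) * g x) := by
  obtain ⟨Φ, h1, h2⟩ := hg
  refine ⟨Φ.compSubConstCLM ℂ ω, fun ξ hξ => ?_, fun x => ?_⟩
  · rw [compSubConstCLM_apply]
    apply h1
    have := abs_sub_abs_le_abs_sub ξ ω
    linarith
  · beta_reduce
    rw [h2, finv_apply, finv_apply, ← integral_const_mul]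
    rw [← integral_sub_right_eq_self _ ω]
    congr 1
    ext ξ
    rw [compSubConstCLM_apply, ← mul_assoc, ← Complex.exp_add]
    congr 2
    push_cast
    ring

lemma IsBL.x_mul {r : ℝ} {g : ℝ → ℂ} (hg : IsBL r g) : IsBL r (fun x => (x : ℂ) * g x) := by
  obtain ⟨Φ, h1, h2⟩ := hg
  refine ⟨(Complex.I / (2 * Real.pi)) • (∂_{(1 : ℝ)} Φ : SchwartzMap ℝ ℂ), fun ξ hξ => ?_,
    fun x => ?_⟩
  · rw [_root_.smul_apply, SchwartzMap.lineDerivOp_apply_eq_fderiv]
    have h3 : (Φ : ℝ → ℂ) =ᶠ[𝓝 ξ] fun _ => (0 : ℂ) := by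
      have : {y : ℝ | r < |y|} ∈ 𝓝 ξ := (isOpen_lt continuous_const continuous_abs).mem_nhds hξ
      filter_upwards [this] with y hy
      exact h1 y hy
    rw [h3.fderiv_eq]
    simp
  · have hT : Function.HasTemperateGrowth (fun y : ℝ => inner ℝ y (1 : ℝ)) := by fun_prop
    beta_reduce
    rw [h2, FourierTransform.fourierInv_smul, fourierInv_lineDerivOp_eq, _root_.smul_apply,
      _root_.smul_apply, smulLeftCLM_apply_apply hT]
    simp only [smul_eq_mul, Complex.real_smul]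
    have hpi : (Real.pi : ℂ) ≠ 0 := by exact_mod_cast Real.pi_ne_zero
    have : inner ℝ x (1 : ℝ) = x := by simp
    rw [this]
    field_simp
    rw [Complex.I_sq]
    ring

lemma IsBL.scale {r : ℝ} {g : ℝ → ℂ} (hg : IsBL r g) (ε : ℝ) (hε : 0 < ε) :
    IsBL (ε * r) (fun x => g (ε * x)) := by
  obtain ⟨Φ, h1, h2⟩ := hg
  have hε' : ε⁻¹ ≠ 0 := by positivity
  let e : ℝ ≃L[ℝ] ℝ := ContinuousLinearEquiv.unitsEquivAut ℝ (Units.mk0 ε⁻¹ hε')
  refine ⟨((ε⁻¹ : ℝ) : ℂ) • compCLMOfContinuousLinearEquiv ℂ e Φ, fun ξ hξ => ?_, fun x => ?_⟩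
  · rw [_root_.smul_apply]
    have : (compCLMOfContinuousLinearEquiv ℂ e Φ) ξ = Φ (ξ * ε⁻¹) := rfl
    rw [this, h1, smul_zero]
    rw [abs_mul, abs_of_pos (inv_pos.2 hε), ← div_eq_mul_inv, lt_div_iff₀ hε]
    linarith
  · beta_reduce
    rw [h2, FourierTransform.fourierInv_smul, _root_.smul_apply, finv_apply, finv_apply]
    have : ∀ ξ, (compCLMOfContinuousLinearEquiv ℂ e Φ) ξ = Φ (ε⁻¹ * ξ) := by
      intro ξ
      rw [mul_comm]
      rfl
    simp_rw [this]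
    have h3 := Measure.integral_comp_mul_left
      (fun ξ => Complex.exp (2 * Real.pi * (ξ * (ε * x)) * Complex.I) * Φ ξ) ε⁻¹
    rw [inv_inv, abs_of_pos hε] at h3
    have h4 : ∀ ξ : ℝ, Complex.exp (2 * Real.pi * (((ε⁻¹ * ξ : ℝ) : ℂ) * (ε * x)) * Complex.I) *
        Φ (ε⁻¹ * ξ) = Complex.exp (2 * Real.pi * (ξ * x) * Complex.I) * Φ (ε⁻¹ * ξ) := by
      intro ξ
      congr 3
      have : (ε : ℂ) ≠ 0 := by exact_mod_cast hε.ne'
      push_cast
      field_simp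
    simp_rw [h4] at h3
    rw [h3, smul_eq_mul, Complex.real_smul, ← mul_assoc]
    have : ((ε⁻¹ : ℝ) : ℂ) * (ε : ℂ) = 1 := by
      have : (ε : ℂ) ≠ 0 := by exact_mod_cast hε.ne'
      push_cast
      field_simp
    rw [this, one_mul]
    push_cast
    rfl

lemma IsBL.sin_sq_mul {r : ℝ} {g : ℝ → ℂ} (hg : IsBL r g) (ω δ : ℝ) :
    IsBL (r + 2 * |ω|) (fun x => ((Real.sin (2 * Real.pi * ω * x + δ) ^ 2 : ℝ) : ℂ) * g x) := by
  have h1 := (hg.exp_mul (2 * ω)).const_mul (-(1 / 4) * Complex.exp (2 * δ * Complex.I))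
  have h2 := (hg.exp_mul (-(2 * ω))).const_mul (-(1 / 4) * Complex.exp (-(2 * δ * Complex.I)))
  have h3 := (hg.const_mul (1 / 2)).mono (s := r + 2 * |ω|) (by
    have := abs_nonneg ω
    linarith)
  have e1 : r + |2 * ω| = r + 2 * |ω| := by rw [abs_mul]; norm_num
  have e2 : r + |-(2 * ω)| = r + 2 * |ω| := by rw [abs_neg, e1]
  rw [e1] at h1
  rw [e2] at h2
  have h4 := h3.add (h1.add h2)
  convert h4 using 2 with x
  have h5 : ((Real.sin (2 * Real.pi * ω * x + δ) ^ 2 : ℝ) : ℂ) =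
      1 / 2 + (-(1 / 4) * Complex.exp (2 * δ * Complex.I) *
        Complex.exp (2 * Real.pi * ((2 * ω : ℝ) * x) * Complex.I) +
      -(1 / 4) * Complex.exp (-(2 * δ * Complex.I)) *
        Complex.exp (2 * Real.pi * ((-(2 * ω) : ℝ) * x) * Complex.I)) := by
    rw [mul_assoc (-(1 / 4) : ℂ), mul_assoc (-(1 / 4) : ℂ), ← Complex.exp_add, ← Complex.exp_add]
    push_cast
    rw [Complex.sin]
    set θ : ℂ := 2 * Real.pi * ω * x + δ with hθ
    have e3 : 2 * (δ : ℂ) * Complex.I + 2 * Real.pi * (2 * ω * x) * Complex.I =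
        θ * Complex.I + θ * Complex.I := by rw [hθ]; ring
    have e4 : -(2 * (δ : ℂ) * Complex.I) + 2 * Real.pi * (-(2 * ω) * x) * Complex.I =
        -θ * Complex.I + -θ * Complex.I := by rw [hθ]; ring
    rw [e3, e4, Complex.exp_add, Complex.exp_add]
    have e5 : Complex.exp (θ * Complex.I) * Complex.exp (-θ * Complex.I) = 1 := by
      rw [← Complex.exp_add]
      simp
    have e6 : ((Complex.exp (-θ * Complex.I) - Complex.exp (θ * Complex.I)) * Complex.I / 2) ^ 2 =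
        Complex.I ^ 2 / 4 * (Complex.exp (-θ * Complex.I) ^ 2 + Complex.exp (θ * Complex.I) ^ 2 -
          2 * (Complex.exp (θ * Complex.I) * Complex.exp (-θ * Complex.I))) := by ring
    rw [e6, e5, Complex.I_sq]
    ring
  rw [h5]
  ring

/-- A nonnegative band-limited Schwartz function, positive at the origin. -/
lemma exists_psi : ∃ ψ : ℝ → ℝ, Continuous ψ ∧ (∀ x, 0 ≤ ψ x) ∧ 0 < ψ 0 ∧ (∃ C, ∀ x, ψ x ≤ C) ∧
    IsBL 1 (fun x => (ψ x : ℂ)) := by
  let b : ContDiffBump (0 : ℝ) := ⟨1 / 4, 1 / 2, by norm_num, by norm_num⟩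
  have hbs : HasCompactSupport (fun x : ℝ => ((b x : ℝ) : ℂ)) :=
    b.hasCompactSupport.comp_left (g := fun y : ℝ => (y : ℂ)) (by simp)
  have hbc : ContDiff ℝ (⊤ : ℕ∞) (fun x : ℝ => ((b x : ℝ) : ℂ)) :=
    Complex.ofRealCLM.contDiff.comp b.contDiff
  let φ : SchwartzMap ℝ ℂ := hbs.toSchwartzMap hbc
  have hφ : ∀ x, φ x = ((b x : ℝ) : ℂ) := fun x => rfl
  let Φ : SchwartzMap ℝ ℂ := SchwartzMap.convolution (ContinuousLinearMap.mul ℂ ℂ) φ φ
  -- the Fourier transform of `φ` is real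
  let c : ℝ → ℝ := fun x => ∫ y : ℝ, b y * Real.cos (2 * Real.pi * (y * x))
  have hcint : ∀ x, Integrable fun y : ℝ => b y * Real.cos (2 * Real.pi * (y * x)) := by
    intro x
    apply Continuous.integrable_of_hasCompactSupport
    · exact b.continuous.mul (by fun_prop)
    · exact b.hasCompactSupport.mul_right
  have hsint : ∀ x, Integrable fun y : ℝ => b y * Real.sin (2 * Real.pi * (y * x)) := by
    intro x
    apply Continuous.integrable_of_hasCompactSupport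
    · exact b.continuous.mul (by fun_prop)
    · exact b.hasCompactSupport.mul_right
  have hsin0 : ∀ x, ∫ y : ℝ, b y * Real.sin (2 * Real.pi * (y * x)) = 0 := by
    intro x
    have h1 := integral_neg_eq_self (fun y : ℝ => b y * Real.sin (2 * Real.pi * (y * x))) volume
    have h2 : ∀ y : ℝ, b (-y) * Real.sin (2 * Real.pi * (-y * x)) =
        -(b y * Real.sin (2 * Real.pi * (y * x))) := by
      intro y
      rw [b.neg]
      have : 2 * Real.pi * (-y * x) = -(2 * Real.pi * (y * x)) := by ring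
      rw [this, Real.sin_neg]
      ring
    simp_rw [h2] at h1
    rw [integral_neg] at h1
    linarith
  have hF : ∀ x, (𝓕⁻ φ : SchwartzMap ℝ ℂ) x = (c x : ℂ) := by
    intro x
    rw [finv_apply]
    have h1 : ∀ y : ℝ, Complex.exp (2 * Real.pi * (y * x) * Complex.I) * φ y =
        ((b y * Real.cos (2 * Real.pi * (y * x)) : ℝ) : ℂ) +
          ((b y * Real.sin (2 * Real.pi * (y * x)) : ℝ) : ℂ) * Complex.I := by
      intro y
      rw [hφ, Complex.exp_mul_I]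
      push_cast
      ring
    simp_rw [h1]
    rw [integral_add, integral_mul_const, integral_complex_ofReal, integral_complex_ofReal, hsin0]
    · simp [c]
    · exact (hcint x).ofReal
    · exact ((hsint x).ofReal).mul_const _
  have hFΦ : ∀ x, (𝓕⁻ Φ : SchwartzMap ℝ ℂ) x = ((c x ^ 2 : ℝ) : ℂ) := by
    intro x
    have h1 : (𝓕⁻ Φ : SchwartzMap ℝ ℂ) x = (𝓕 Φ : SchwartzMap ℝ ℂ) (-x) := by
      rw [fourierInv_coe, fourier_coe, Real.fourierInv_eq_fourier_neg]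
    have h2 : (𝓕⁻ φ : SchwartzMap ℝ ℂ) x = (𝓕 φ : SchwartzMap ℝ ℂ) (-x) := by
      rw [fourierInv_coe, fourier_coe, Real.fourierInv_eq_fourier_neg]
    rw [h1]
    change (𝓕 (SchwartzMap.convolution (ContinuousLinearMap.mul ℂ ℂ) φ φ) : SchwartzMap ℝ ℂ)
      (-x) = _
    rw [SchwartzMap.fourier_convolution, SchwartzMap.pairing_apply_apply]
    rw [ContinuousLinearMap.mul_apply', ← h2, hF]
    push_cast
    ring
  have hc0 : 0 < c 0 := by
    have h1 : c 0 = ∫ y : ℝ, b y := by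
      simp only [c, mul_zero, Real.cos_zero, mul_one]
    rw [h1]
    exact b.integral_pos
  refine ⟨fun x => c x ^ 2, ?_, fun x => sq_nonneg _, by positivity, ?_, ?_⟩
  · have h1 : Continuous fun x => ((𝓕⁻ Φ : SchwartzMap ℝ ℂ) x).re :=
      Complex.continuous_re.comp (𝓕⁻ Φ : SchwartzMap ℝ ℂ).continuous
    have h2 : (fun x => c x ^ 2) = fun x => ((𝓕⁻ Φ : SchwartzMap ℝ ℂ) x).re := by
      ext x
      rw [hFΦ, Complex.ofReal_re]
    rw [h2]
    exact h1
  · refine ⟨SchwartzMap.seminorm ℝ 0 0 (𝓕⁻ Φ : SchwartzMap ℝ ℂ), fun x => ?_⟩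
    have h1 := SchwartzMap.norm_le_seminorm ℝ (𝓕⁻ Φ : SchwartzMap ℝ ℂ) x
    rw [hFΦ, Complex.norm_real, Real.norm_eq_abs, abs_of_nonneg (sq_nonneg _)] at h1
    exact h1
  · refine ⟨Φ, fun ξ hξ => ?_, fun x => (hFΦ x).symm⟩
    change (SchwartzMap.convolution (ContinuousLinearMap.mul ℂ ℂ) φ φ) ξ = 0
    rw [SchwartzMap.convolution_apply]
    rw [MeasureTheory.convolution_def]
    apply integral_eq_zero_of_ae
    filter_upwards with t
    simp only [ContinuousLinearMap.mul_apply', Pi.zero_apply, mul_eq_zero]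
    by_contra hcon
    push Not at hcon
    obtain ⟨h1, h2⟩ := hcon
    rw [hφ] at h1 h2
    have h3 : t ∈ Function.support b := by
      intro h0
      apply h1
      rw [h0]
      simp
    have h4 : ξ - t ∈ Function.support b := by
      intro h0
      apply h2
      rw [h0]
      simp
    rw [b.support_eq, Metric.mem_ball, dist_zero_right, Real.norm_eq_abs] at h3 h4
    have h5 : |ξ| ≤ |ξ - t| + |t| := by
      calc |ξ| = |(ξ - t) + t| := by ring_nf
        _ ≤ _ := abs_add_le _ _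
    have h6 : b.rOut = 1 / 2 := rfl
    rw [h6] at h3 h4
    linarith

end Pool.Agent.Helper47.Mimic
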