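import Mathlib

/-!
# Definitions for `MP_0e0b55_pr`: mimicry of the sine process on a lattice
-/

set_option autoImplicit false

universe v

namespace Pool.Agent.Helper47.Mimic

open MeasureTheory

/-- A point process on `ℝ`: a random locally finite configuration `(u_j)` of points, with
multiplicities allowed, given as a sequence of random points some of which may be absent.
`present j` is the event that there is a `j`-th point, and `pos j` is its position
(relevant only on `present j`). -/
structure PointProcess (Ω : Type v) [MeasurableSpace Ω] where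
  present : ℕ → Set Ω
  pos : ℕ → Ω → ℝ
  measurableSet_present : ∀ j, MeasurableSet (present j)
  measurable_pos : ∀ j, Measurable (pos j)
  locallyFinite : ∀ (ω : Ω) (R : ℝ), {j | ω ∈ present j ∧ |pos j ω| ≤ R}.Finite

variable {Ω : Type v} [MeasurableSpace Ω]

/-- The number of points (with multiplicities) in the set `s`. -/
noncomputable def PointProcess.count (u : PointProcess Ω) (s : Set ℝ) (ω : Ω) : ℕ :=
  {j | ω ∈ u.present j ∧ u.pos j ω ∈ s}.ncard

/-- Uniform local moments: for every `k ≥ 1`, `sup_x E[#(u ∩ [x, x+1])^k] < ∞`. -/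
def PointProcess.ULM (u : PointProcess Ω) (P : Measure Ω) : Prop :=
  ∀ k : ℕ, 1 ≤ k → ∃ C : NNReal, ∀ x : ℝ,
    ∫⁻ ω, (u.count (Set.Icc x (x + 1)) ω : ENNReal) ^ k ∂P ≤ C

/-- Almost surely all points lie in `aℤ`. -/
def PointProcess.OnLattice (u : PointProcess Ω) (P : Measure Ω) (a : ℝ) : Prop :=
  ∀ᵐ ω ∂P, ∀ j, ω ∈ u.present j → ∃ k : ℤ, u.pos j ω = a * k

open Classical in
/-- The sum `∑* η(u_{j_1}, …, u_{j_n})` over all `n`-tuples of pairwise distinct indices (of
points that are present). -/
noncomputable def PointProcess.sumDistinct (u : PointProcess Ω) {n : ℕ}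
    (η : (Fin n → ℝ) → ℂ) (ω : Ω) : ℂ :=
  ∑' j : Fin n ↪ ℕ, if ∀ i, ω ∈ u.present (j i) then η (fun i => u.pos (j i) ω) else 0

/-- `S(x) = sin(πx)/(πx)`, `S(0) = 1`. -/
noncomputable def S (x : ℝ) : ℝ := if x = 0 then 1 else Real.sin (Real.pi * x) / (Real.pi * x)

/-- The `n`-point correlation function of the sine process, `det [S(x_i - x_j)]`. -/
noncomputable def sineCorrelation {n : ℕ} (x : Fin n → ℝ) : ℝ :=
  (Matrix.of fun i j => S (x i - x j)).det

/-- The Fourier transform on `ℝⁿ`, `η̂(ξ) = ∫ η(x) e^{-2πi x·ξ} dx`. -/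
noncomputable def fourierT {n : ℕ} (η : (Fin n → ℝ) → ℂ) (ξ : Fin n → ℝ) : ℂ :=
  ∫ x : Fin n → ℝ, η x * Complex.exp (-2 * Real.pi * Complex.I * (∑ i, x i * ξ i : ℝ))

/-- The point process `u` mimics the sine process at bandwidth `B`: for every `n ≥ 1` and every
Schwartz function `η` on `ℝⁿ` whose Fourier transform is supported in `[-B, B]ⁿ`, the expectation
of `∑* η(u_{j_1}, …, u_{j_n})` equals the integral of `η` against the `n`-point correlation
measure of the sine process. -/
def PointProcess.MimicsSine (u : PointProcess Ω) (P : Measure Ω) (B : ℝ) : Prop :=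
  ∀ n : ℕ, 1 ≤ n → ∀ η : SchwartzMap (Fin n → ℝ) ℂ,
    (∀ ξ : Fin n → ℝ, (∃ i, B < |ξ i|) → fourierT η ξ = 0) →
    ∫ ω, u.sumDistinct η ω ∂P = ∫ x : Fin n → ℝ, η x * (sineCorrelation x : ℂ)

/-- The pair `(a, B)` admits mimicry: some point process with uniform local moments whose points
lie almost surely in `aℤ` mimics the sine process at bandwidth `B`. -/
def AdmitsMimicry (a B : ℝ) : Prop :=
  ∃ (Ω : Type v) (_ : MeasurableSpace Ω) (P : Measure Ω) (_ : IsProbabilityMeasure P)
    (u : PointProcess Ω), u.ULM P ∧ u.OnLattice P a ∧ u.MimicsSine P B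

end Pool.Agent.Helper47.Mimic
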