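import Mathlib

/-!
# Finite-dimensional lemmas on determinants
-/

set_option autoImplicit false

namespace Pool.Agent.Helper47.Mimic

open Matrix Finset

/-- A positive semidefinite matrix with diagonal entries at most `1` has determinant in `[0,1]`. -/
lemma det_mem_of_posSemidef {n : ℕ} (M : Matrix (Fin n) (Fin n) ℝ) (hM : M.PosSemidef)
    (hd : ∀ i, M i i ≤ 1) : 0 ≤ M.det ∧ M.det ≤ 1 := by
  refine ⟨hM.det_nonneg, ?_⟩
  have h1 := hM.isHermitian.det_eq_prod_eigenvalues
  have h2 := hM.isHermitian.trace_eq_sum_eigenvalues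
  simp only [RCLike.ofReal_real_eq_id, id_eq] at h1 h2
  rw [h1]
  have h3 : ∑ i, (hM.isHermitian.eigenvalues i - 1) ≤ 0 := by
    rw [Finset.sum_sub_distrib, ← h2]
    have : M.trace ≤ ∑ _i : Fin n, (1 : ℝ) := Finset.sum_le_sum fun i _ => hd i
    linarith
  calc ∏ i, hM.isHermitian.eigenvalues i
      ≤ ∏ i, Real.exp (hM.isHermitian.eigenvalues i - 1) := by
        apply Finset.prod_le_prod
        · intro i _; exact hM.eigenvalues_nonneg i
        · intro i _
          have := Real.add_one_le_exp (hM.isHermitian.eigenvalues i - 1)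
          linarith
    _ = Real.exp (∑ i, (hM.isHermitian.eigenvalues i - 1)) := by rw [Real.exp_sum]
    _ ≤ 1 := by rw [Real.exp_le_one_iff]; exact h3

/-- The sum of `det (A (k i) (k j))` over all functions `k : Fin n → ι` is `n!` times the sum of
the principal minors of order `n`. -/
lemma sum_fun_det {ι : Type*} [Fintype ι] [DecidableEq ι] (A : Matrix ι ι ℝ) (n : ℕ) :
    ∑ k : Fin n → ι, (A.submatrix k k).det =
      (n.factorial : ℝ) * ∑ s ∈ (Finset.univ : Finset ι).powersetCard n,
        (A.submatrix (Subtype.val : s → ι) (Subtype.val : s → ι)).det := by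
  classical
  have h1 : ∑ k : Fin n → ι, (A.submatrix k k).det =
      ∑ k ∈ (Finset.univ : Finset (Fin n → ι)).filter Function.Injective,
        (A.submatrix k k).det := by
    rw [Finset.sum_filter]
    apply Finset.sum_congr rfl
    intro k _
    split_ifs with hk
    · rfl
    · rw [Function.Injective] at hk
      push Not at hk
      obtain ⟨i, j, hij, hne⟩ := hk
      apply Matrix.det_zero_of_row_eq hne
      ext l
      simp [Matrix.submatrix_apply, hij]
  rw [h1, Finset.mul_sum]
  have h2 : ∀ s ∈ (Finset.univ : Finset ι).powersetCard n,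
      (n.factorial : ℝ) * (A.submatrix (Subtype.val : s → ι) (Subtype.val : s → ι)).det =
      ∑ e : Fin n ≃ s, (A.submatrix (fun i => (e i : ι)) (fun i => (e i : ι))).det := by
    intro s hs
    have hc : s.card = n := (Finset.mem_powersetCard.1 hs).2
    have h3 : ∀ e : Fin n ≃ s, (A.submatrix (fun i => (e i : ι)) (fun i => (e i : ι))).det =
        (A.submatrix (Subtype.val : s → ι) (Subtype.val : s → ι)).det := by
      intro e
      have := Matrix.det_submatrix_equiv_self e
        (A.submatrix (Subtype.val : s → ι) (Subtype.val : s → ι))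
      rw [← this]
      rfl
    rw [Finset.sum_congr rfl fun e _ => h3 e, Finset.sum_const, nsmul_eq_mul]
    congr 2
    rw [Finset.card_univ]
    have he : Fintype.card (Fin n) = Fintype.card s := by simp [hc]
    rw [Fintype.card_equiv (Fintype.equivOfCardEq he)]
    simp
  rw [Finset.sum_congr rfl h2, Finset.sum_sigma']
  symm
  apply Finset.sum_bij (fun (p : (s : Finset ι) × (Fin n ≃ s)) _ => fun i => (p.2 i : ι))
  · rintro ⟨s, e⟩ _
    simp only [Finset.mem_filter, Finset.mem_univ, true_and]
    exact Subtype.val_injective.comp e.injective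
  · rintro ⟨s, e⟩ _ ⟨s', e'⟩ _ h
    have hs : s = s' := by
      ext x
      constructor
      · intro hx
        have := congrFun h (e.symm ⟨x, hx⟩)
        simp only [Equiv.apply_symm_apply] at this
        rw [this]
        exact (e' (e.symm ⟨x, hx⟩)).2
      · intro hx
        have := congrFun h (e'.symm ⟨x, hx⟩)
        simp only [Equiv.apply_symm_apply] at this
        rw [← this]
        exact (e (e'.symm ⟨x, hx⟩)).2
    subst hs
    have : e = e' := by
      ext i
      exact congrFun h i
    rw [this]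
  · intro k hk
    simp only [Finset.mem_filter, Finset.mem_univ, true_and] at hk
    refine ⟨⟨Finset.univ.image k, Equiv.ofBijective
      (fun i => ⟨k i, Finset.mem_image_of_mem k (Finset.mem_univ i)⟩) ⟨?_, ?_⟩⟩, ?_, ?_⟩
    · intro i j hij
      exact hk (congrArg Subtype.val hij)
    · rintro ⟨x, hx⟩
      obtain ⟨i, _, rfl⟩ := Finset.mem_image.1 hx
      exact ⟨i, rfl⟩
    · simp only [Finset.mem_sigma, Finset.mem_univ, and_true, Finset.mem_powersetCard,
        Finset.subset_univ, true_and]
      rw [Finset.card_image_of_injective _ hk]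
      simp
    · rfl
  · rintro ⟨s, e⟩ _
    rfl

/-- `det (1 + tA)` as a (finite) power series in `t`. -/
lemma hasSum_det {ι : Type*} [Fintype ι] [DecidableEq ι] (A : Matrix ι ι ℝ) (t : ℝ) :
    HasSum (fun n : ℕ => t ^ n / (n.factorial : ℝ) * ∑ k : Fin n → ι, (A.submatrix k k).det)
      (1 + t • A).det := by
  classical
  have h1 : ∀ n : ℕ, t ^ n / (n.factorial : ℝ) * ∑ k : Fin n → ι, (A.submatrix k k).det =
      (det (1 + (Polynomial.X : Polynomial ℝ) • A.map Polynomial.C)).coeff n * t ^ n := by
    intro n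
    rw [Matrix.coeff_det_one_add_X_smul_eq_sum_minors, sum_fun_det]
    have : (n.factorial : ℝ) ≠ 0 := by positivity
    field_simp
  simp_rw [h1]
  have h2 : (1 + t • A).det =
      (det (1 + (Polynomial.X : Polynomial ℝ) • A.map Polynomial.C)).eval t := by
    rw [← Polynomial.coe_evalRingHom, RingHom.map_det]
    congr 1
    ext i j
    rcases eq_or_ne i j with hij | hij
    · subst hij
      simp [mul_comm t]
    · simp [hij, mul_comm t]
  rw [h2, Polynomial.eval_eq_sum_range]
  apply hasSum_sum_of_ne_finset_zero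
  intro n hn
  rw [Finset.mem_range, not_lt] at hn
  rw [Polynomial.coeff_eq_zero_of_natDegree_lt (by omega), zero_mul]

/-- If `vᵀ A v < -κ |v|²` for some `v`, then `det (1 + tA) = 0` for some `0 ≤ t ≤ 1/κ`. -/
lemma exists_det_eq_zero {ι : Type*} [Fintype ι] [DecidableEq ι] (A : Matrix ι ι ℝ)
    (hA : A.IsHermitian) (κ : ℝ) (hκ : 0 < κ) (v : ι → ℝ)
    (hv : v ⬝ᵥ (A *ᵥ v) < -κ * (v ⬝ᵥ v)) :
    ∃ t : ℝ, 0 ≤ t ∧ t ≤ 1 / κ ∧ (1 + t • A).det = 0 := by
  have hA' : (A + κ • (1 : Matrix ι ι ℝ)).IsHermitian := by
    apply hA.add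
    rw [Matrix.IsHermitian, Matrix.conjTranspose_smul]
    simp
  by_cases hall : ∀ i, 0 ≤ hA'.eigenvalues i
  · exfalso
    have hps := hA'.posSemidef_iff_eigenvalues_nonneg.2 hall
    have h1 := hps.dotProduct_mulVec_nonneg v
    rw [Matrix.add_mulVec, dotProduct_add, Matrix.smul_mulVec, Matrix.one_mulVec,
      dotProduct_smul] at h1
    simp only [star_trivial, smul_eq_mul] at h1
    linarith
  · push Not at hall
    obtain ⟨i, hi⟩ := hall
    set μ := hA'.eigenvalues i with hμ
    have hev := hA'.mulVec_eigenvectorBasis i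
    set w : ι → ℝ := ⇑(hA'.eigenvectorBasis i) with hw
    have hw0 : w ≠ 0 := by
      intro h0
      have h1 := (hA'.eigenvectorBasis.orthonormal.1 i)
      have h2 : hA'.eigenvectorBasis i = 0 := by
        ext j
        exact congrFun h0 j
      rw [h2] at h1
      simp at h1
    have hAw : A *ᵥ w = (μ - κ) • w := by
      have h3 : (A + κ • (1 : Matrix ι ι ℝ)) *ᵥ w = μ • w := hev
      rw [Matrix.add_mulVec, Matrix.smul_mulVec, Matrix.one_mulVec] at h3
      rw [sub_smul, ← h3]
      simp
    have hpos : 0 < κ - μ := by linarith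
    refine ⟨1 / (κ - μ), by positivity, ?_, ?_⟩
    · apply one_div_le_one_div_of_le hκ
      linarith
    · apply Matrix.exists_mulVec_eq_zero_iff.1
      refine ⟨w, hw0, ?_⟩
      rw [Matrix.add_mulVec, Matrix.one_mulVec, Matrix.smul_mulVec, hAw, smul_smul]
      have : 1 / (κ - μ) * (μ - κ) = -1 := by
        field_simp
        ring
      rw [this]
      simp

end Pool.Agent.Helper47.Mimic
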