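import Pool.Agent.Helper47.Mimic.DetSum

/-!
# Expansion of `∫ ∏ W(x_i) det[K(x_i,x_j)]` for finite-rank kernels
-/

set_option autoImplicit false
set_option linter.unusedSectionVars false

namespace Pool.Agent.Helper47.Mimic

open Matrix Finset MeasureTheory

variable {ι : Type*} [Fintype ι] [DecidableEq ι]

/-- The finite-rank kernel with features `ψ`. -/
noncomputable def ker (ψ : ι → ℝ → ℝ) (x y : ℝ) : ℝ := ∑ k, ψ k x * ψ k y

/-- The Gram-type matrix `∫ W ψ_j ψ_k`. -/
noncomputable def gram (W : ℝ → ℝ) (ψ : ι → ℝ → ℝ) : Matrix ι ι ℝ :=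
  Matrix.of fun j k => ∫ x, W x * ψ j x * ψ k x

lemma det_ker_expand (W : ℝ → ℝ) (ψ : ι → ℝ → ℝ) {n : ℕ} (x : Fin n → ℝ) :
    (∏ i, W (x i)) * (Matrix.of fun i j => ker ψ (x i) (x j)).det =
      ∑ σ : Equiv.Perm (Fin n), ∑ k : Fin n → ι, (Equiv.Perm.sign σ : ℝ) *
        ∏ i, (W (x i) * ψ (k (σ i)) (x i) * ψ (k i) (x i)) := by
  rw [Matrix.det_apply', Finset.mul_sum]
  rw [← Equiv.sum_comp (Equiv.inv (Equiv.Perm (Fin n)))]
  apply Finset.sum_congr rfl
  intro σ _
  simp only [Equiv.inv_apply, Matrix.of_apply, ker, Equiv.Perm.sign_inv]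
  rw [Finset.prod_univ_sum, Fintype.piFinset_univ, Finset.mul_sum, Finset.mul_sum]
  apply Finset.sum_congr rfl
  intro k _
  have h1 : ∏ i, ψ (k i) (x (σ⁻¹ i)) = ∏ i, ψ (k (σ i)) (x i) := by
    rw [← Equiv.prod_comp σ]
    simp
  rw [Finset.prod_mul_distrib, Finset.prod_mul_distrib, Finset.prod_mul_distrib, h1]
  ring

lemma integral_det_ker (W : ℝ → ℝ) (ψ : ι → ℝ → ℝ)
    (hint : ∀ j k, Integrable fun x => W x * ψ j x * ψ k x) (n : ℕ) :
    ∫ x : Fin n → ℝ, (∏ i, W (x i)) * (Matrix.of fun i j => ker ψ (x i) (x j)).det =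
      ∑ k : Fin n → ι, ((gram W ψ).submatrix k k).det := by
  simp_rw [det_ker_expand]
  have hI : ∀ (σ : Equiv.Perm (Fin n)) (k : Fin n → ι),
      Integrable (fun x : Fin n → ℝ => ∏ i, (W (x i) * ψ (k (σ i)) (x i) * ψ (k i) (x i))) := by
    intro σ k
    exact Integrable.fintype_prod (μ := fun _ => (volume : Measure ℝ))
      (f := fun i => fun y => W y * ψ (k (σ i)) y * ψ (k i) y)
      (fun i => hint (k (σ i)) (k i))
  rw [integral_finsetSum]
  swap
  · intro σ _
    apply integrable_finsetSum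
    intro k _
    exact (hI σ k).const_mul _
  have h2 : ∀ σ : Equiv.Perm (Fin n), ∫ x : Fin n → ℝ, ∑ k : Fin n → ι,
      (Equiv.Perm.sign σ : ℝ) * ∏ i, (W (x i) * ψ (k (σ i)) (x i) * ψ (k i) (x i)) =
      ∑ k : Fin n → ι, (Equiv.Perm.sign σ : ℝ) * ∏ i, gram W ψ (k (σ i)) (k i) := by
    intro σ
    rw [integral_finsetSum]
    swap
    · intro k _
      exact (hI σ k).const_mul _
    apply Finset.sum_congr rfl
    intro k _
    rw [integral_const_mul]
    congr 1
    rw [integral_fintype_prod_volume_eq_prod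
      (f := fun i => fun y => W y * ψ (k (σ i)) y * ψ (k i) y)]
    rfl
  rw [Finset.sum_congr rfl fun σ _ => h2 σ, Finset.sum_comm]
  apply Finset.sum_congr rfl
  intro k _
  rw [Matrix.det_apply']
  rfl

lemma gram_isHermitian (W : ℝ → ℝ) (ψ : ι → ℝ → ℝ) : (gram W ψ).IsHermitian := by
  ext i j
  simp only [gram, Matrix.conjTranspose_apply, Matrix.of_apply, star_trivial]
  congr 1
  ext x
  ring

lemma dotProduct_gram (W : ℝ → ℝ) (ψ : ι → ℝ → ℝ)
    (hint : ∀ j k, Integrable fun x => W x * ψ j x * ψ k x) (v : ι → ℝ) :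
    v ⬝ᵥ (gram W ψ *ᵥ v) = ∫ x, W x * (∑ k, v k * ψ k x) ^ 2 := by
  have h1 : ∀ x, W x * (∑ k, v k * ψ k x) ^ 2 =
      ∑ j, ∑ k, v j * v k * (W x * ψ j x * ψ k x) := by
    intro x
    rw [sq, Finset.sum_mul_sum, Finset.mul_sum]
    apply Finset.sum_congr rfl
    intro j _
    rw [Finset.mul_sum]
    apply Finset.sum_congr rfl
    intro k _
    ring
  simp_rw [h1]
  rw [integral_finsetSum]
  swap
  · intro j _
    apply integrable_finsetSum
    intro k _
    exact (hint j k).const_mul _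
  simp only [dotProduct, Matrix.mulVec]
  apply Finset.sum_congr rfl
  intro j _
  rw [integral_finsetSum]
  swap
  · intro k _
    exact (hint j k).const_mul _
  rw [Finset.mul_sum]
  apply Finset.sum_congr rfl
  intro k _
  rw [integral_const_mul]
  simp only [gram, Matrix.of_apply]
  ring

lemma ker_posSemidef (ψ : ι → ℝ → ℝ) {n : ℕ} (x : Fin n → ℝ) :
    (Matrix.of fun i j => ker ψ (x i) (x j)).PosSemidef := by
  have h := Matrix.posSemidef_self_mul_conjTranspose (Matrix.of fun (i : Fin n) (k : ι) => ψ k (x i))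
  convert h using 1
  ext i j
  simp [ker, Matrix.mul_apply]

end Pool.Agent.Helper47.Mimic
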