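import Pool.Agent.Helper47.Mimic.Expand

/-!
# The limiting argument
-/

set_option autoImplicit false

namespace Pool.Agent.Helper47.Mimic

open Matrix Finset MeasureTheory Filter Topology

lemma measurable_det_ker {n : ℕ} (K : ℝ → ℝ → ℝ) (hK : Measurable (Function.uncurry K)) :
    Measurable fun x : Fin n → ℝ => (Matrix.of fun i j => K (x i) (x j)).det := by
  simp_rw [Matrix.det_apply']
  apply Finset.measurable_sum
  intro σ _
  apply Measurable.const_mul
  apply Finset.measurable_prod
  intro i _
  simp only [Matrix.of_apply]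
  have h1 : Measurable fun x : Fin n → ℝ => (x (σ i), x i) :=
    (measurable_pi_apply (σ i)).prodMk (measurable_pi_apply i)
  exact hK.comp h1

lemma integrable_prod {n : ℕ} (W : ℝ → ℝ) (hW : Integrable W) :
    Integrable fun x : Fin n → ℝ => ∏ i, W (x i) :=
  Integrable.fintype_prod (μ := fun _ => (volume : Measure ℝ)) (f := fun _ => W) (fun _ => hW)

/-- If `W` has a negative direction in the limit of the finite-rank kernels, then some
`∫ ∏ W(x_i) det[K(x_i,x_j)]` is negative. -/
theorem exists_neg_of_limit (W : ℝ → ℝ) (hW : Integrable W) (K : ℝ → ℝ → ℝ)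
    (ι : ℕ → Type) [∀ N, Fintype (ι N)] [∀ N, DecidableEq (ι N)]
    (ψ : ∀ N, ι N → ℝ → ℝ) (hψ : ∀ N k, Measurable (ψ N k)) (hψb : ∀ N k x, |ψ N k x| ≤ 1)
    (hdiag : ∀ N x, ker (ψ N) x x ≤ 1)
    (hK : ∀ x y, Tendsto (fun N => ker (ψ N) x y) atTop (𝓝 (K x y)))
    (f : ℝ → ℝ) (v : ∀ N, ι N → ℝ) (C : ℝ) (hv : ∀ N, v N ⬝ᵥ v N ≤ C)
    (C' : ℝ) (hf : ∀ N x, |∑ k, v N k * ψ N k x| ≤ C')
    (hlim : ∀ x, Tendsto (fun N => ∑ k, v N k * ψ N k x) atTop (𝓝 (f x)))
    (hneg : ∫ x, W x * f x ^ 2 < 0) :
    ∃ n : ℕ, 1 ≤ n ∧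
      ∫ x : Fin n → ℝ, (∏ i, W (x i)) * (Matrix.of fun i j => K (x i) (x j)).det < 0 := by
  by_contra hcon
  push Not at hcon
  have hint : ∀ N j k, Integrable fun x => W x * ψ N j x * ψ N k x := by
    intro N j k
    have h1 : Integrable fun x => W x * (ψ N j x * ψ N k x) := by
      apply Integrable.mul_bdd (c := 1) hW
      · exact ((hψ N j).mul (hψ N k)).aestronglyMeasurable
      · filter_upwards with x
        rw [Real.norm_eq_abs, abs_mul]
        exact mul_le_one₀ (hψb N j x) (abs_nonneg _) (hψb N k x)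
    simpa only [mul_assoc] using h1
  -- the finite-rank integrals
  set J : ℕ → ℕ → ℝ := fun N n =>
    ∫ x : Fin n → ℝ, (∏ i, W (x i)) * (Matrix.of fun i j => ker (ψ N) (x i) (x j)).det with hJ
  set I : ℕ → ℝ := fun n =>
    ∫ x : Fin n → ℝ, (∏ i, W (x i)) * (Matrix.of fun i j => K (x i) (x j)).det with hI
  set w : ℝ := ∫ x, |W x| with hw
  have hw0 : 0 ≤ w := integral_nonneg fun x => abs_nonneg _
  have hkermeas : ∀ N, Measurable (Function.uncurry (ker (ψ N))) := by
    intro N
    unfold ker Function.uncurry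
    apply Finset.measurable_sum
    intro k _
    exact ((hψ N k).comp measurable_fst).mul ((hψ N k).comp measurable_snd)
  have hdet : ∀ N n (x : Fin n → ℝ),
      |(Matrix.of fun i j => ker (ψ N) (x i) (x j)).det| ≤ 1 := by
    intro N n x
    obtain ⟨h0, h1⟩ := det_mem_of_posSemidef _ (ker_posSemidef (ψ N) x)
      (fun i => by simpa using hdiag N (x i))
    rw [abs_le]
    constructor <;> linarith
  have hbound : ∀ N n (x : Fin n → ℝ),
      ‖(∏ i, W (x i)) * (Matrix.of fun i j => ker (ψ N) (x i) (x j)).det‖ ≤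
        ∏ i, |W (x i)| := by
    intro N n x
    rw [norm_mul, Real.norm_eq_abs, Real.norm_eq_abs, Finset.abs_prod]
    exact mul_le_of_le_one_right (Finset.prod_nonneg fun i _ => abs_nonneg _) (hdet N n x)
  have habsint : ∀ n, Integrable fun x : Fin n → ℝ => ∏ i, |W (x i)| := fun n =>
    integrable_prod (fun y => |W y|) hW.abs
  have hmeas : ∀ N n, AEStronglyMeasurable (fun x : Fin n → ℝ =>
      (∏ i, W (x i)) * (Matrix.of fun i j => ker (ψ N) (x i) (x j)).det) := by
    intro N n
    exact (integrable_prod W hW).aestronglyMeasurable.mul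
      (measurable_det_ker _ (hkermeas N)).aestronglyMeasurable
  have hJlim : ∀ n, Tendsto (fun N => J N n) atTop (𝓝 (I n)) := by
    intro n
    apply tendsto_integral_of_dominated_convergence (fun x => ∏ i, |W (x i)|)
      (fun N => hmeas N n) (habsint n)
    · intro N
      filter_upwards with x
      exact hbound N n x
    · filter_upwards with x
      apply Tendsto.const_mul
      simp_rw [Matrix.det_apply']
      apply tendsto_finsetSum
      intro σ _
      apply Tendsto.const_mul
      apply tendsto_finsetProd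
      intro i _
      simp only [Matrix.of_apply]
      exact hK _ _
  have hJb : ∀ N n, |J N n| ≤ w ^ n := by
    intro N n
    calc |J N n| ≤ ∫ x : Fin n → ℝ, ∏ i, |W (x i)| := by
          rw [← Real.norm_eq_abs]
          apply norm_integral_le_of_norm_le (habsint n)
          filter_upwards with x
          exact hbound N n x
      _ = w ^ n := by
          rw [integral_fintype_prod_volume_eq_prod (f := fun _ : Fin n => fun y : ℝ => |W y|)]
          simp [hw]
  -- the negative direction
  have hquad : Tendsto (fun N => v N ⬝ᵥ (gram W (ψ N) *ᵥ v N)) atTop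
      (𝓝 (∫ x, W x * f x ^ 2)) := by
    simp_rw [fun N => dotProduct_gram W (ψ N) (hint N) (v N)]
    apply tendsto_integral_of_dominated_convergence (fun x => |W x| * C' ^ 2)
    · intro N
      apply hW.aestronglyMeasurable.mul
      apply Measurable.aestronglyMeasurable
      apply Measurable.pow_const
      apply Finset.measurable_sum
      intro k _
      exact (hψ N k).const_mul _
    · exact hW.abs.mul_const _
    · intro N
      filter_upwards with x
      rw [norm_mul, Real.norm_eq_abs, Real.norm_eq_abs, abs_pow]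
      exact mul_le_mul_of_nonneg_left (pow_le_pow_left₀ (abs_nonneg _) (hf N x) 2) (abs_nonneg _)
    · filter_upwards with x
      exact ((hlim x).pow 2).const_mul _
  set m : ℝ := -∫ x, W x * f x ^ 2 with hm
  have hmpos : 0 < m := by linarith
  have hC0 : 0 ≤ C := le_trans (by
    simp only [dotProduct]
    exact Finset.sum_nonneg fun k _ => mul_self_nonneg _) (hv 0)
  set κ : ℝ := m / (2 * (C + 1)) with hκ
  have hκpos : 0 < κ := by positivity
  set T : ℝ := 1 / κ with hT
  have hTpos : 0 < T := by positivity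
  -- Tannery
  set g : ℕ → ℕ → ℝ := fun N n => T ^ n / (n.factorial : ℝ) * max 0 (-J N n) with hg
  have hJ0 : ∀ N, J N 0 = 1 := by
    intro N
    have h1 := integral_fintype_prod_volume_eq_prod (f := fun _ : Fin 0 => fun y : ℝ => W y)
    simp only [Finset.univ_eq_empty, Finset.prod_empty] at h1
    simp only [hJ, Finset.univ_eq_empty, Finset.prod_empty, Matrix.det_isEmpty, mul_one]
    exact h1
  have hglim : Tendsto (fun N => ∑' n, g N n) atTop (𝓝 (∑' _n : ℕ, (0 : ℝ))) := by
    apply tendsto_tsum_of_dominated_convergence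
      (bound := fun n => (T * w) ^ n / (n.factorial : ℝ))
    · exact Real.summable_pow_div_factorial (T * w)
    · intro n
      have h1 : Tendsto (fun N => g N n) atTop
          (𝓝 (T ^ n / (n.factorial : ℝ) * max 0 (-I n))) := by
        apply Tendsto.const_mul
        exact tendsto_const_nhds.max (hJlim n).neg
      have h2 : max 0 (-I n) = 0 := by
        apply max_eq_left
        rcases Nat.eq_zero_or_pos n with h0 | h0
        · subst h0
          simp [hI]
        · have := hcon n h0
          linarith
      rw [h2, mul_zero] at h1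
      exact h1
    · filter_upwards with N n
      rw [Real.norm_eq_abs, abs_of_nonneg (by positivity), mul_pow, hg]
      have h3 : max 0 (-J N n) ≤ w ^ n := by
        apply max_le (by positivity)
        have := (abs_le.1 (hJb N n)).1
        linarith
      calc T ^ n / (n.factorial : ℝ) * max 0 (-J N n)
          ≤ T ^ n / (n.factorial : ℝ) * w ^ n := by gcongr
        _ = T ^ n * w ^ n / (n.factorial : ℝ) := by ring
  rw [tsum_zero] at hglim
  have he1 : ∀ᶠ N in atTop, ∑' n, g N n < 1 / 2 :=
    hglim.eventually_lt_const (by norm_num)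
  have he2 : ∀ᶠ N in atTop, v N ⬝ᵥ (gram W (ψ N) *ᵥ v N) < -(m / 2) :=
    hquad.eventually_lt_const (by linarith)
  obtain ⟨N, hN1, hN2⟩ := (he1.and he2).exists
  have hvv : v N ⬝ᵥ (gram W (ψ N) *ᵥ v N) < -κ * (v N ⬝ᵥ v N) := by
    have h1 : κ * (v N ⬝ᵥ v N) ≤ κ * C := mul_le_mul_of_nonneg_left (hv N) hκpos.le
    have h2 : κ * C ≤ m / 2 := by
      rw [hκ, div_mul_eq_mul_div, div_le_div_iff₀ (by positivity) (by norm_num)]
      nlinarith
    linarith
  obtain ⟨t, ht0, ht1, htdet⟩ := exists_det_eq_zero (gram W (ψ N)) (gram_isHermitian W (ψ N)) κ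
    hκpos (v N) hvv
  have hsum := hasSum_det (gram W (ψ N)) t
  rw [htdet] at hsum
  have hJeq : ∀ n, ∑ k : Fin n → ι N, ((gram W (ψ N)).submatrix k k).det = J N n := fun n =>
    (integral_det_ker W (ψ N) (hint N) n).symm
  simp_rw [hJeq] at hsum
  -- summability of g N
  have hgsum : Summable (g N) := by
    apply Summable.of_nonneg_of_le (f := fun n => (T * w) ^ n / (n.factorial : ℝ))
    · intro n
      simp only [hg]
      positivity
    · intro n
      simp only [hg]
      have h3 : max 0 (-J N n) ≤ w ^ n := by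
        apply max_le (by positivity)
        have := (abs_le.1 (hJb N n)).1
        linarith
      calc T ^ n / (n.factorial : ℝ) * max 0 (-J N n)
          ≤ T ^ n / (n.factorial : ℝ) * w ^ n := by gcongr
        _ = (T * w) ^ n / (n.factorial : ℝ) := by rw [mul_pow]; ring
    · exact Real.summable_pow_div_factorial (T * w)
  have hsum1 : HasSum (fun n : ℕ => if n = 0 then (1 : ℝ) else 0) 1 := hasSum_ite_eq 0 1
  have hsum2 := hsum1.sub hgsum.hasSum
  have hle := hasSum_le (fun n => ?_) hsum2 hsum
  · linarith
  · rcases Nat.eq_zero_or_pos n with h0 | h0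
    · subst h0
      simp only [hg, hJ0]
      norm_num
    · have hn : n ≠ 0 := by omega
      simp only [hn, if_false, hg]
      have h4 : t ^ n ≤ T ^ n := pow_le_pow_left₀ ht0 ht1 n
      have h5 : -J N n ≤ max 0 (-J N n) := le_max_right _ _
      have h6 : 0 ≤ max 0 (-J N n) := le_max_left _ _
      have h7 : t ^ n / (n.factorial : ℝ) * max 0 (-J N n) ≤
          T ^ n / (n.factorial : ℝ) * max 0 (-J N n) := by gcongr
      have h8 : t ^ n / (n.factorial : ℝ) * (-J N n) ≤
          t ^ n / (n.factorial : ℝ) * max 0 (-J N n) :=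
        mul_le_mul_of_nonneg_left h5 (by positivity)
      linarith

end Pool.Agent.Helper47.Mimic
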