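import Pool.Agent.Helper47.Mimic.Limit
import Pool.Agent.Helper47.Mimic.Defs

/-!
# The sine kernel as a limit of finite-rank kernels
-/

set_option autoImplicit false

namespace Pool.Agent.Helper47.Mimic

open Matrix Finset MeasureTheory Filter Topology

/-- the nodes -/
noncomputable def node (N : ℕ) (k : ℕ) : ℝ := (k : ℝ) / ((N : ℝ) + 1) - 1 / 2

lemma node_mem (N k : ℕ) (hk : k ≤ N + 1) : node N k ∈ Set.Icc (-1 / 2 : ℝ) (1 / 2) := by
  have h1 : (0 : ℝ) < (N : ℝ) + 1 := by positivity
  have h2 : (k : ℝ) ≤ (N : ℝ) + 1 := by exact_mod_cast hk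
  have h3 : (k : ℝ) / ((N : ℝ) + 1) ≤ 1 := by rw [div_le_one h1]; exact h2
  have h4 : 0 ≤ (k : ℝ) / ((N : ℝ) + 1) := by positivity
  simp only [node, Set.mem_Icc]
  constructor <;> linarith

lemma riemann (g : ℝ → ℝ) (hg : Continuous g) :
    Tendsto (fun N : ℕ => (1 / ((N : ℝ) + 1)) * ∑ k : Fin (N + 1), g (node N k)) atTop
      (𝓝 (∫ ξ in (-1 / 2 : ℝ)..(1 / 2), g ξ)) := by
  rw [Metric.tendsto_atTop]
  intro ε hε
  have huc := isCompact_Icc.uniformContinuousOn_of_continuous
    (s := Set.Icc (-1 / 2 : ℝ) (1 / 2)) hg.continuousOn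
  rw [Metric.uniformContinuousOn_iff] at huc
  obtain ⟨δ, hδ, huc⟩ := huc (ε / 2) (by positivity)
  obtain ⟨N₀, hN₀⟩ := exists_nat_one_div_lt hδ
  refine ⟨N₀, fun N hN => ?_⟩
  have hpos : (0 : ℝ) < (N : ℝ) + 1 := by positivity
  have hstep : 1 / ((N : ℝ) + 1) < δ := by
    refine lt_of_le_of_lt ?_ hN₀
    apply one_div_le_one_div_of_le (by positivity)
    have : (N₀ : ℝ) ≤ N := by exact_mod_cast hN
    linarith
  have hdiff : ∀ k : ℕ, node N (k + 1) - node N k = 1 / ((N : ℝ) + 1) := by
    intro k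
    simp only [node]
    push_cast
    ring
  have h0 : node N 0 = -1 / 2 := by simp [node]; norm_num
  have h1 : node N (N + 1) = 1 / 2 := by
    simp only [node]
    push_cast
    rw [div_self hpos.ne']
    norm_num
  have hint : ∫ ξ in (-1 / 2 : ℝ)..(1 / 2), g ξ =
      ∑ k ∈ Finset.range (N + 1), ∫ ξ in node N k..node N (k + 1), g ξ := by
    rw [intervalIntegral.sum_integral_adjacent_intervals]
    · rw [h0, h1]
    · intro k _
      exact hg.intervalIntegrable _ _
  have hsum : (1 / ((N : ℝ) + 1)) * ∑ k : Fin (N + 1), g (node N k) =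
      ∑ k ∈ Finset.range (N + 1), ∫ _ξ in node N k..node N (k + 1), g (node N k) := by
    rw [Finset.mul_sum, Fin.sum_univ_eq_sum_range (fun k => 1 / ((N : ℝ) + 1) * g (node N k))]
    apply Finset.sum_congr rfl
    intro k _
    rw [intervalIntegral.integral_const, hdiff, smul_eq_mul]
  rw [hint, hsum, dist_eq_norm, ← Finset.sum_sub_distrib]
  have hterm : ∀ k ∈ Finset.range (N + 1),
      ‖(∫ _ξ in node N k..node N (k + 1), g (node N k)) -
        ∫ ξ in node N k..node N (k + 1), g ξ‖ ≤ ε / 2 * (1 / ((N : ℝ) + 1)) := by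
    intro k hk
    rw [Finset.mem_range] at hk
    rw [← intervalIntegral.integral_sub (by simp) (hg.intervalIntegrable _ _)]
    have hle : node N k ≤ node N (k + 1) := by
      have := hdiff k
      have : 0 < 1 / ((N : ℝ) + 1) := by positivity
      linarith
    have := intervalIntegral.norm_integral_le_of_norm_le_const (C := ε / 2)
      (f := fun ξ => g (node N k) - g ξ) (a := node N k) (b := node N (k + 1)) (by
        intro y hy
        rw [Set.uIoc_of_le hle] at hy
        have hk1 := node_mem N k (by omega)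
        have hk2 := node_mem N (k + 1) (by omega)
        have hy1 : y ∈ Set.Icc (-1 / 2 : ℝ) (1 / 2) :=
          ⟨by linarith [hk1.1, hy.1], by linarith [hk2.2, hy.2]⟩
        have := huc _ hk1 _ hy1 (by
          rw [Real.dist_eq, abs_lt]
          have := hdiff k
          constructor <;> linarith [hy.1, hy.2])
        rw [Real.dist_eq] at this
        rw [Real.norm_eq_abs]
        exact this.le)
    rwa [abs_of_nonneg (by linarith), hdiff] at this
  calc ‖∑ k ∈ Finset.range (N + 1), ((∫ _ξ in node N k..node N (k + 1), g (node N k)) -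
        ∫ ξ in node N k..node N (k + 1), g ξ)‖
      ≤ ∑ k ∈ Finset.range (N + 1), ε / 2 * (1 / ((N : ℝ) + 1)) :=
        norm_sum_le_of_le _ hterm
    _ = ε / 2 := by
        rw [Finset.sum_const, Finset.card_range, nsmul_eq_mul]
        push_cast
        field_simp
    _ < ε := by linarith

lemma integral_cos_S (u : ℝ) :
    ∫ ξ in (-1 / 2 : ℝ)..(1 / 2), Real.cos (2 * Real.pi * ξ * u) = S u := by
  by_cases hu : u = 0
  · subst hu
    simp [S]
    norm_num
  · have hc : (2 * Real.pi * u) ≠ 0 := by positivity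
    have h1 : ∀ ξ : ℝ, Real.cos (2 * Real.pi * ξ * u) = Real.cos ((2 * Real.pi * u) * ξ) := by
      intro ξ; congr 1; ring
    simp_rw [h1]
    rw [intervalIntegral.integral_comp_mul_left (fun y => Real.cos y) hc, integral_cos]
    rw [S, if_neg hu]
    have h2 : 2 * Real.pi * u * (-1 / 2) = -(Real.pi * u) := by ring
    have h3 : 2 * Real.pi * u * (1 / 2) = Real.pi * u := by ring
    rw [h2, h3, Real.sin_neg, smul_eq_mul]
    have hpi : Real.pi ≠ 0 := Real.pi_ne_zero
    field_simp
    ring

/-- features -/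
noncomputable def feat (N : ℕ) (k : Fin (N + 1) × Bool) (x : ℝ) : ℝ :=
  (1 / Real.sqrt ((N : ℝ) + 1)) *
    (if k.2 then Real.cos (2 * Real.pi * node N k.1 * x)
      else Real.sin (2 * Real.pi * node N k.1 * x))

lemma sqrt_aux (N : ℕ) : (1 / Real.sqrt ((N : ℝ) + 1)) * (1 / Real.sqrt ((N : ℝ) + 1)) =
    1 / ((N : ℝ) + 1) := by
  rw [div_mul_div_comm, one_mul, Real.mul_self_sqrt (by positivity)]

lemma sum_feat (N : ℕ) (c : Fin (N + 1) × Bool → ℝ) :
    ∑ k, c k = ∑ k : Fin (N + 1), (c (k, true) + c (k, false)) := by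
  rw [Fintype.sum_prod_type]
  simp

lemma ker_feat (N : ℕ) (x y : ℝ) : ker (feat N) x y =
    (1 / ((N : ℝ) + 1)) * ∑ k : Fin (N + 1), Real.cos (2 * Real.pi * node N k * (x - y)) := by
  rw [ker, sum_feat, Finset.mul_sum]
  apply Finset.sum_congr rfl
  intro k _
  have h1 : 2 * Real.pi * node N k * (x - y) =
      2 * Real.pi * node N k * x - 2 * Real.pi * node N k * y := by ring
  rw [h1, Real.cos_sub, ← sqrt_aux]
  simp only [feat, if_true, Bool.false_eq_true, if_false]
  ring

/-- If `∫ W f² < 0` for a function `f` with Fourier transform supported in `[-1/2,1/2]`, then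
`∫ ∏ W(x_i) det[S(x_i-x_j)] < 0` for some `n ≥ 1`. -/
theorem exists_neg_sine (W : ℝ → ℝ) (hW : Integrable W) (α β : ℝ → ℝ) (hα : Continuous α)
    (hβ : Continuous β) (f : ℝ → ℝ)
    (hf : ∀ x, f x = ∫ ξ in (-1 / 2 : ℝ)..(1 / 2),
      (α ξ * Real.cos (2 * Real.pi * ξ * x) + β ξ * Real.sin (2 * Real.pi * ξ * x)))
    (hneg : ∫ x, W x * f x ^ 2 < 0) :
    ∃ n : ℕ, 1 ≤ n ∧ ∫ x : Fin n → ℝ, (∏ i, W (x i)) * sineCorrelation x < 0 := by
  obtain ⟨M, hM⟩ := (isCompact_Icc (a := (-1 / 2 : ℝ)) (b := 1 / 2)).exists_bound_of_continuousOn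
    (f := fun ξ => |α ξ| + |β ξ|) (by fun_prop)
  have hM' : ∀ N (k : Fin (N + 1)), |α (node N k)| + |β (node N k)| ≤ M := by
    intro N k
    have := hM _ (node_mem N k (by omega))
    rw [Real.norm_eq_abs, abs_of_nonneg (by positivity)] at this
    exact this
  have havg : ∀ N (c : Fin (N + 1) → ℝ) (D : ℝ), (∀ k, c k ≤ D) →
      (1 / ((N : ℝ) + 1)) * ∑ k : Fin (N + 1), c k ≤ D := by
    intro N c D hc
    have h1 : ∑ k : Fin (N + 1), c k ≤ ((N : ℝ) + 1) * D := by
      calc ∑ k : Fin (N + 1), c k ≤ ∑ _k : Fin (N + 1), D := Finset.sum_le_sum fun k _ => hc k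
        _ = ((N : ℝ) + 1) * D := by simp
    have hpos : (0 : ℝ) < (N : ℝ) + 1 := by positivity
    calc (1 / ((N : ℝ) + 1)) * ∑ k : Fin (N + 1), c k
        ≤ (1 / ((N : ℝ) + 1)) * (((N : ℝ) + 1) * D) := by gcongr
      _ = D := by field_simp
  set v : ∀ N, Fin (N + 1) × Bool → ℝ := fun N k =>
    (1 / Real.sqrt ((N : ℝ) + 1)) * (if k.2 then α (node N k.1) else β (node N k.1)) with hv
  have hvf : ∀ N x, ∑ k, v N k * feat N k x = (1 / ((N : ℝ) + 1)) *
      ∑ k : Fin (N + 1), (α (node N k) * Real.cos (2 * Real.pi * node N k * x) +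
        β (node N k) * Real.sin (2 * Real.pi * node N k * x)) := by
    intro N x
    rw [sum_feat, Finset.mul_sum]
    apply Finset.sum_congr rfl
    intro k _
    simp only [feat, hv, if_true, Bool.false_eq_true, if_false]
    rw [← sqrt_aux]
    ring
  have hcs : ∀ θ : ℝ, |Real.cos θ| ≤ 1 ∧ |Real.sin θ| ≤ 1 := fun θ =>
    ⟨Real.abs_cos_le_one θ, Real.abs_sin_le_one θ⟩
  have hterm : ∀ N (k : Fin (N + 1)) (x : ℝ),
      |α (node N k) * Real.cos (2 * Real.pi * node N k * x) +
        β (node N k) * Real.sin (2 * Real.pi * node N k * x)| ≤ M := by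
    intro N k x
    calc _ ≤ |α (node N k) * Real.cos (2 * Real.pi * node N k * x)| +
          |β (node N k) * Real.sin (2 * Real.pi * node N k * x)| := abs_add_le _ _
      _ ≤ |α (node N k)| + |β (node N k)| := by
          rw [abs_mul, abs_mul]
          have h1 := (hcs (2 * Real.pi * node N k * x)).1
          have h2 := (hcs (2 * Real.pi * node N k * x)).2
          have h3 := abs_nonneg (α (node N k))
          have h4 := abs_nonneg (β (node N k))
          nlinarith
      _ ≤ M := hM' N k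
  have key := exists_neg_of_limit W hW (fun x y => S (x - y)) (fun N => Fin (N + 1) × Bool)
    feat ?_ ?_ ?_ ?_ f v (M ^ 2) ?_ M ?_ ?_ hneg
  · exact key
  · intro N k
    unfold feat
    apply Measurable.const_mul
    rcases k with ⟨k, b⟩
    cases b
    · simp only [Bool.false_eq_true, if_false]
      fun_prop
    · simp only [if_true]
      fun_prop
  · intro N k x
    unfold feat
    rw [abs_mul]
    have h1 : |1 / Real.sqrt ((N : ℝ) + 1)| ≤ 1 := by
      rw [abs_of_nonneg (by positivity), div_le_one (by positivity)]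
      rw [Real.one_le_sqrt]
      have : (0 : ℝ) ≤ N := by positivity
      linarith
    apply mul_le_one₀ h1 (abs_nonneg _)
    split_ifs
    · exact (hcs _).1
    · exact (hcs _).2
  · intro N x
    rw [ker_feat]
    apply havg
    intro k
    exact Real.cos_le_one _
  · intro x y
    simp_rw [ker_feat]
    rw [← integral_cos_S]
    exact riemann (fun ξ => Real.cos (2 * Real.pi * ξ * (x - y))) (by fun_prop)
  · intro N
    have h1 : v N ⬝ᵥ v N = (1 / ((N : ℝ) + 1)) *
        ∑ k : Fin (N + 1), (α (node N k) ^ 2 + β (node N k) ^ 2) := by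
      rw [dotProduct, sum_feat, Finset.mul_sum]
      apply Finset.sum_congr rfl
      intro k _
      simp only [hv, if_true, Bool.false_eq_true, if_false]
      rw [← sqrt_aux]
      ring
    rw [h1]
    apply havg
    intro k
    have h2 := hM' N k
    have h3 := abs_nonneg (α (node N k))
    have h4 := abs_nonneg (β (node N k))
    rw [← sq_abs (α (node N k)), ← sq_abs (β (node N k))]
    nlinarith
  · intro N x
    rw [hvf, abs_le]
    constructor
    · have := havg N (fun k => -(α (node N k) * Real.cos (2 * Real.pi * node N k * x) +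
        β (node N k) * Real.sin (2 * Real.pi * node N k * x))) M
        (fun k => by linarith [(abs_le.1 (hterm N k x)).1])
      rw [Finset.sum_neg_distrib] at this
      linarith
    · exact havg N _ M (fun k => (abs_le.1 (hterm N k x)).2)
  · intro x
    simp_rw [hvf]
    rw [hf]
    exact riemann (fun ξ => α ξ * Real.cos (2 * Real.pi * ξ * x) +
      β ξ * Real.sin (2 * Real.pi * ξ * x)) (by fun_prop)

end Pool.Agent.Helper47.Mimic
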