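import Mathlib

/-!
# Tensor powers of a Schwartz function
-/

set_option autoImplicit false

namespace Pool.Agent.Helper47.Mimic

open MeasureTheory FourierTransform

lemma norm_iteratedFDeriv_proj_le (G : SchwartzMap ℝ ℂ) {n : ℕ} (j : Fin n) (c : ℕ)
    (x : Fin n → ℝ) :
    ‖iteratedFDeriv ℝ c (fun y : Fin n → ℝ => G (y j)) x‖ ≤ ‖iteratedFDeriv ℝ c G (x j)‖ := by
  have h1 := (ContinuousLinearMap.proj (R := ℝ) (φ := fun _ : Fin n => ℝ) j).iteratedFDeriv_comp_right
    (f := (G : ℝ → ℂ)) (G.smooth c) x (i := c) (by exact_mod_cast le_refl _)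
  have h2 : (G : ℝ → ℂ) ∘ (ContinuousLinearMap.proj (R := ℝ) (φ := fun _ : Fin n => ℝ) j) =
      fun y : Fin n → ℝ => G (y j) := rfl
  rw [h2] at h1
  rw [h1]
  refine (ContinuousMultilinearMap.norm_compContinuousLinearMap_le _ _).trans ?_
  have h3 : ‖ContinuousLinearMap.proj (R := ℝ) (φ := fun _ : Fin n => ℝ) j‖ ≤ 1 := by
    apply ContinuousLinearMap.opNorm_le_bound _ zero_le_one
    intro y
    rw [one_mul]
    exact norm_le_pi_norm y j
  calc _ ≤ ‖iteratedFDeriv ℝ c (G : ℝ → ℂ) (x j)‖ * 1 := by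
        apply mul_le_mul_of_nonneg_left _ (norm_nonneg _)
        apply Finset.prod_le_one
        · intro i _; exact norm_nonneg _
        · intro i _; exact h3
    _ = _ := by rw [mul_one]

lemma norm_le_prod_one_add {n : ℕ} (x : Fin n → ℝ) : ‖x‖ ≤ ∏ i, (1 + |x i|) := by
  have hone : ∀ s : Finset (Fin n), (1 : ℝ) ≤ ∏ i ∈ s, (1 + |x i|) := by
    intro s
    calc (1 : ℝ) = ∏ _i ∈ s, (1 : ℝ) := by simp
      _ ≤ _ := by
        apply Finset.prod_le_prod
        · intro i _; exact zero_le_one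
        · intro i _
          have := abs_nonneg (x i)
          linarith
  have h0 := hone Finset.univ
  rw [pi_norm_le_iff_of_nonneg (by linarith)]
  intro j
  rw [← Finset.mul_prod_erase Finset.univ (fun i => 1 + |x i|) (Finset.mem_univ j)]
  have h1 := hone (Finset.univ.erase j)
  rw [Real.norm_eq_abs]
  have := abs_nonneg (x j)
  nlinarith

lemma exists_tensor (G : SchwartzMap ℝ ℂ) (n : ℕ) :
    ∃ η : SchwartzMap (Fin n → ℝ) ℂ, ∀ x, η x = ∏ i, G (x i) := by
  have hsm : ∀ i : Fin n, ContDiff ℝ (⊤ : ℕ∞) (fun x : Fin n → ℝ => G (x i)) := by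
    intro i
    exact (G.smooth ⊤).comp (contDiff_apply ℝ ℝ i)
  refine ⟨⟨fun x => ∏ i, G (x i), ?_, ?_⟩, fun x => rfl⟩
  · apply contDiff_prod
    intro i _
    exact hsm i
  · intro k m
    set D : ℝ := 2 ^ k * ((Finset.Iic (k, m)).sup fun q => SchwartzMap.seminorm ℝ q.1 q.2) G
      with hD
    have hDb : ∀ (c : ℕ) (y : ℝ), c ≤ m → (1 + |y|) ^ k * ‖iteratedFDeriv ℝ c G y‖ ≤ D := by
      intro c y hc
      have := SchwartzMap.one_add_le_sup_seminorm_apply (𝕜 := ℝ) (m := (k, m)) (k := k) (n := c)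
        le_rfl hc G y
      simpa [hD] using this
    refine ⟨∑ p ∈ (Finset.univ : Finset (Fin n)).sym m,
      ((p : Multiset (Fin n)).countPerms : ℝ) * D ^ n, fun x => ?_⟩
    have h1 := norm_iteratedFDeriv_prod_le (𝕜 := ℝ) (u := (Finset.univ : Finset (Fin n)))
      (f := fun i (x : Fin n → ℝ) => G (x i)) (N := (⊤ : ℕ∞)) (fun i _ => hsm i) (x := x) (n := m)
      (by exact_mod_cast le_top)
    have hD0 : 0 ≤ D := le_trans (by positivity) (hDb 0 0 (Nat.zero_le _))
    calc ‖x‖ ^ k * ‖iteratedFDeriv ℝ m (fun x : Fin n → ℝ => ∏ i, G (x i)) x‖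
        ≤ (∏ i, (1 + |x i|)) ^ k * ∑ p ∈ (Finset.univ : Finset (Fin n)).sym m,
          ((p : Multiset (Fin n)).countPerms : ℝ) *
            ∏ j, ‖iteratedFDeriv ℝ ((p : Multiset (Fin n)).count j)
              (fun x : Fin n → ℝ => G (x j)) x‖ := by
          apply mul_le_mul _ h1 (norm_nonneg _) (by positivity)
          exact pow_le_pow_left₀ (norm_nonneg _) (norm_le_prod_one_add x) k
      _ ≤ _ := by
          rw [Finset.mul_sum]
          apply Finset.sum_le_sum
          intro p hp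
          rw [mul_left_comm]
          apply mul_le_mul_of_nonneg_left _ (by positivity)
          rw [← Finset.prod_pow, ← Finset.prod_mul_distrib]
          calc _ ≤ ∏ _i : Fin n, D := by
                apply Finset.prod_le_prod
                · intro i _; positivity
                · intro i _
                  refine le_trans ?_ (hDb ((p : Multiset (Fin n)).count i) (x i) ?_)
                  · apply mul_le_mul_of_nonneg_left _ (by positivity)
                    exact norm_iteratedFDeriv_proj_le G i _ x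
                  · have := Multiset.count_le_card i (p : Multiset (Fin n))
                    rwa [Sym.card_coe] at this
            _ = D ^ n := by simp

lemma fourierT_tensor (G Φ : SchwartzMap ℝ ℂ) (hG : G = 𝓕⁻ Φ) {n : ℕ} (ξ : Fin n → ℝ) :
    ∫ x : Fin n → ℝ, (∏ i, G (x i)) *
      Complex.exp (-2 * Real.pi * Complex.I * (∑ i, x i * ξ i : ℝ)) = ∏ i, Φ (ξ i) := by
  have h1 : ∀ x : Fin n → ℝ, (∏ i, G (x i)) *
      Complex.exp (-2 * Real.pi * Complex.I * (∑ i, x i * ξ i : ℝ)) =
      ∏ i, (Complex.exp (((-2 * Real.pi * x i * ξ i : ℝ) : ℂ) * Complex.I) * G (x i)) := by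
    intro x
    rw [Finset.prod_mul_distrib, ← Complex.exp_sum, mul_comm]
    congr 2
    push_cast
    rw [Finset.mul_sum]
    apply Finset.sum_congr rfl
    intro i _
    ring
  simp_rw [h1]
  rw [integral_fintype_prod_volume_eq_prod (f := fun i => fun y : ℝ =>
    Complex.exp (((-2 * Real.pi * y * ξ i : ℝ) : ℂ) * Complex.I) * G y)]
  apply Finset.prod_congr rfl
  intro i _
  have h2 : (𝓕 G : SchwartzMap ℝ ℂ) = Φ := by
    rw [hG]
    simp
  have h3 : (𝓕 G : SchwartzMap ℝ ℂ) (ξ i) = Φ (ξ i) := by rw [h2]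
  rw [← h3, SchwartzMap.fourier_coe, Real.fourier_real_eq_integral_exp_smul]
  rfl

end Pool.Agent.Helper47.Mimic
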