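import Pool.Agent.Helper47.Mimic.Neg
import Pool.Agent.Helper47.Mimic.BL

/-!
# The witness function
-/

set_option autoImplicit false

namespace Pool.Agent.Helper47.Mimic

open MeasureTheory Filter Topology FourierTransform

lemma IsBL.integrable {r : ℝ} {g : ℝ → ℂ} (hg : IsBL r g) : Integrable g := by
  obtain ⟨Φ, _, h2⟩ := hg
  have : g = fun x => (𝓕⁻ Φ : SchwartzMap ℝ ℂ) x := by ext x; exact h2 x
  rw [this]
  exact (𝓕⁻ Φ : SchwartzMap ℝ ℂ).integrable

lemma sn_sub (p l i : ℕ) (x h : ℝ) : sn p l i (x - h) =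
    Real.sin (2 * Real.pi * (1 / (2 * ((l : ℝ) + 2))) * x +
      (-(Real.pi * (2 * i + 1) / (2 * ((p : ℝ) + l + 2))) -
        2 * Real.pi * (1 / (2 * ((l : ℝ) + 2))) * h)) := by
  unfold sn
  congr 1
  ring

lemma IsBL.mul_GG {r : ℝ} {g : ℝ → ℂ} (hg : IsBL r g) (p l m : ℕ) (h : ℝ) :
    IsBL (r + m * (1 / ((l : ℝ) + 2)))
      (fun x => (((∏ i ∈ Finset.range m, sn p l (i + 1) (x - h)) ^ 2 : ℝ) : ℂ) * g x) := by
  induction m with
  | zero => simpa using hg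
  | succ m ih =>
    have h1 := ih.sin_sq_mul (1 / (2 * ((l : ℝ) + 2)))
      (-(Real.pi * (2 * (m + 1 : ℕ) + 1) / (2 * ((p : ℝ) + l + 2))) -
        2 * Real.pi * (1 / (2 * ((l : ℝ) + 2))) * h)
    have e : r + m * (1 / ((l : ℝ) + 2)) + 2 * |1 / (2 * ((l : ℝ) + 2))| =
        r + (m + 1 : ℕ) * (1 / ((l : ℝ) + 2)) := by
      rw [abs_of_pos (by positivity)]
      push_cast
      have : (l : ℝ) + 2 ≠ 0 := by positivity
      field_simp
      ring
    rw [e] at h1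
    convert h1 using 2 with x
    rw [Finset.prod_range_succ, sn_sub p l (m + 1)]
    push_cast
    ring

lemma IsRep.mul_HH {r : ℝ} {g : ℝ → ℂ} (hg : IsRep r g) (p l m : ℕ) :
    IsRep (r + m * (1 / (2 * ((l : ℝ) + 2))))
      (fun x => ((∏ j ∈ Finset.range m, sn p l (p + j + 1) x : ℝ) : ℂ) * g x) := by
  induction m with
  | zero => simpa using hg
  | succ m ih =>
    have h1 := ih.sin_mul (1 / (2 * ((l : ℝ) + 2)))
      (-(Real.pi * (2 * (p + m + 1 : ℕ) + 1) / (2 * ((p : ℝ) + l + 2))))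
    have e : r + m * (1 / (2 * ((l : ℝ) + 2))) + |1 / (2 * ((l : ℝ) + 2))| =
        r + (m + 1 : ℕ) * (1 / (2 * ((l : ℝ) + 2))) := by
      rw [abs_of_pos (by positivity)]
      push_cast
      ring
    rw [e] at h1
    convert h1 using 2 with x
    · rw [Finset.prod_range_succ]
      have : sn p l (p + m + 1) x = Real.sin (2 * Real.pi * (1 / (2 * ((l : ℝ) + 2))) * x +
        (-(Real.pi * (2 * (p + m + 1 : ℕ) + 1) / (2 * ((p : ℝ) + l + 2))))) := rfl
      rw [this]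
      push_cast
      ring

/-- The test function. -/
noncomputable def tf (p l : ℕ) (a x : ℝ) : ℝ :=
  kk (1 / ((l : ℝ) + 2)) (cc p l) (x - a / 2) * HH p l (x - a / 2)

lemma tf_isRep (p l : ℕ) (a : ℝ) : IsRep (1 / 2) (fun x => (tf p l a x : ℂ)) := by
  have h1 := ((kk_isRep (1 / ((l : ℝ) + 2)) (cc p l) (by positivity)).mul_HH p l l).shift (a / 2)
  have e : 1 / ((l : ℝ) + 2) + l * (1 / (2 * ((l : ℝ) + 2))) = 1 / 2 := by
    have : (l : ℝ) + 2 ≠ 0 := by positivity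
    field_simp
    ring
  rw [e] at h1
  convert h1 using 2 with x
  unfold tf HH
  push_cast
  ring

/-- The witness. -/
noncomputable def wit (ψ : ℝ → ℝ) (p l : ℕ) (a ε x : ℝ) : ℝ :=
  GG p l (x - a / 2) ^ 2 * (x * (x * ψ (ε * x)) + (-a) * (x * ψ (ε * x)))

lemma wit_isBL (ψ : ℝ → ℝ) (hψ : IsBL 1 (fun x => (ψ x : ℂ))) (p l : ℕ) (a ε : ℝ) (hε : 0 < ε) :
    IsBL (ε + p * (1 / ((l : ℝ) + 2))) (fun x => (wit ψ p l a ε x : ℂ)) := by
  have h1 := (hψ.scale ε hε).x_mul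
  have h2 := (h1.x_mul.add (h1.const_mul (-a))).mul_GG p l p (a / 2)
  rw [mul_one] at h2
  convert h2 using 2 with x
  unfold wit GG
  push_cast
  ring

lemma wit_mul (ψ : ℝ → ℝ) (p l : ℕ) (a ε x : ℝ) : wit ψ p l a ε x * tf p l a x ^ 2 =
    ψ (ε * x) * (((x - a / 2) ^ 2 - a ^ 2 / 4) * FF p l (x - a / 2) ^ 2) := by
  unfold wit tf FF
  ring

lemma exists_params (a B : ℝ) (ha : 0 < a) (hB : 0 < B) (h : 1 < a * (1 + B)) :
    ∃ p l : ℕ, (p : ℝ) * (1 / ((l : ℝ) + 2)) < B ∧ cc p l < a := by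
  have h0 : max 0 (1 / a - 1) < B := by
    apply max_lt hB
    rw [sub_lt_iff_lt_add, div_lt_iff₀ ha]
    linarith
  obtain ⟨r, hr1, hr2⟩ := exists_rat_btwn h0
  have hr0 : (0 : ℝ) < r := lt_of_le_of_lt (le_max_left _ _) hr1
  have hr0' : 0 < r := by exact_mod_cast hr0
  have hra : 1 / a - 1 < r := lt_of_le_of_lt (le_max_right _ _) hr1
  have hnum : 0 < r.num := Rat.num_pos.2 hr0'
  obtain ⟨m, hm⟩ := Int.eq_ofNat_of_zero_le hnum.le
  have hden : 1 ≤ r.den := r.den_pos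
  obtain ⟨e, he⟩ : ∃ e, r.den = e + 1 := ⟨r.den - 1, by omega⟩
  have hr : (r : ℝ) = (m : ℝ) / ((e : ℝ) + 1) := by
    rw [Rat.cast_def, hm, he]
    push_cast
    rfl
  refine ⟨2 * m, 2 * e, ?_, ?_⟩
  · push_cast
    have : (2 * (m : ℝ)) * (1 / (2 * (e : ℝ) + 2)) = r := by
      rw [hr]
      have : (e : ℝ) + 1 ≠ 0 := by positivity
      field_simp
    rw [this]
    exact hr2
  · unfold cc
    push_cast
    have h1 : (2 * (e : ℝ) + 2) / (2 * (m : ℝ) + 2 * e + 2) = 1 / (1 + r) := by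
      rw [hr]
      have : (e : ℝ) + 1 ≠ 0 := by positivity
      field_simp
      ring
    rw [h1, div_lt_iff₀ (by positivity)]
    have h2 : 1 / a < 1 + r := by linarith
    rw [div_lt_iff₀ ha] at h2
    linarith

theorem exists_witness (a B : ℝ) (ha : 0 < a) (hB : 0 < B) (h : 1 < a * (1 + B)) :
    ∃ W : ℝ → ℝ, Integrable W ∧ IsBL B (fun x => (W x : ℂ)) ∧ (∀ k : ℤ, 0 ≤ W (a * k)) ∧
      ∃ (α β f : ℝ → ℝ), Continuous α ∧ Continuous β ∧
        (∀ x, f x = ∫ ξ in (-1 / 2 : ℝ)..(1 / 2),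
          (α ξ * Real.cos (2 * Real.pi * ξ * x) + β ξ * Real.sin (2 * Real.pi * ξ * x))) ∧
        ∫ x, W x * f x ^ 2 < 0 := by
  obtain ⟨p, l, hp1, hp2⟩ := exists_params a B ha hB h
  obtain ⟨ψ, hψc, hψ0, hψ1, ⟨C, hC⟩, hψBL⟩ := exists_psi
  obtain ⟨α, β, hα, hβ, hf⟩ := (tf_isRep p l a).real_form
  have hneg := FF_negative p l a hp2
  have hint : Integrable fun y : ℝ => (y ^ 2 - a ^ 2 / 4) * FF p l y ^ 2 := by
    have := (FF_sq_mul_integrable p l).sub ((FF_sq_integrable p l).const_mul (a ^ 2 / 4))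
    refine this.congr ?_
    filter_upwards with y
    simp only [Pi.sub_apply]
    ring
  have hint2 : Integrable fun x : ℝ => ((x - a / 2) ^ 2 - a ^ 2 / 4) * FF p l (x - a / 2) ^ 2 :=
    hint.comp_sub_right (a / 2)
  have hC0 : 0 ≤ C := le_trans (hψ0 0) (hC 0)
  have hlim : Tendsto (fun N : ℕ => ∫ x, wit ψ p l a (1 / ((N : ℝ) + 1)) x * tf p l a x ^ 2) atTop
      (𝓝 (∫ x, ψ 0 * (((x - a / 2) ^ 2 - a ^ 2 / 4) * FF p l (x - a / 2) ^ 2))) := by
    simp_rw [wit_mul]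
    apply tendsto_integral_of_dominated_convergence
      (fun x => C * |((x - a / 2) ^ 2 - a ^ 2 / 4) * FF p l (x - a / 2) ^ 2|)
    · intro N
      apply AEStronglyMeasurable.mul _ hint2.aestronglyMeasurable
      exact (hψc.comp (by fun_prop : Continuous fun x : ℝ =>
        1 / ((N : ℝ) + 1) * x)).aestronglyMeasurable
    · exact hint2.abs.const_mul _
    · intro N
      filter_upwards with x
      rw [norm_mul, Real.norm_eq_abs, Real.norm_eq_abs, abs_of_nonneg (hψ0 _)]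
      exact mul_le_mul_of_nonneg_right (hC _) (abs_nonneg _)
    · filter_upwards with x
      apply Tendsto.mul_const
      have h1 : Tendsto (fun N : ℕ => 1 / ((N : ℝ) + 1) * x) atTop (𝓝 0) := by
        have := tendsto_one_div_add_atTop_nhds_zero_nat (𝕜 := ℝ)
        simpa using this.mul_const x
      exact (hψc.tendsto 0).comp h1
  have hval : ∫ x, ψ 0 * (((x - a / 2) ^ 2 - a ^ 2 / 4) * FF p l (x - a / 2) ^ 2) < 0 := by
    rw [integral_const_mul, integral_sub_right_eq_self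
      (fun y => (y ^ 2 - a ^ 2 / 4) * FF p l y ^ 2) (a / 2)]
    exact mul_neg_of_pos_of_neg hψ1 hneg
  have hev := hlim.eventually_lt_const hval
  have hev2 : ∀ᶠ N : ℕ in atTop, 1 / ((N : ℝ) + 1) < B - (p : ℝ) * (1 / ((l : ℝ) + 2)) :=
    (tendsto_one_div_add_atTop_nhds_zero_nat (𝕜 := ℝ)).eventually_lt_const (by linarith)
  obtain ⟨N, hN1, hN2⟩ := (hev.and hev2).exists
  set ε : ℝ := 1 / ((N : ℝ) + 1) with hε
  have hεpos : 0 < ε := by positivity
  have hBL := wit_isBL ψ hψBL p l a ε hεpos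
  refine ⟨wit ψ p l a ε, ?_, hBL.mono (by linarith), ?_, α, β, tf p l a, hα, hβ, hf, hN1⟩
  · have := hBL.integrable.re
    simpa using this
  · intro k
    unfold wit
    have h1 : a * (k : ℝ) * (a * k * ψ (ε * (a * k))) + -a * (a * k * ψ (ε * (a * k))) =
        a ^ 2 * ψ (ε * (a * k)) * ((k : ℝ) * (k - 1)) := by ring
    rw [h1]
    have h2 : (0 : ℝ) ≤ (k : ℝ) * (k - 1) := by
      have : (0 : ℤ) ≤ k * (k - 1) := by
        rcases le_or_gt k 0 with hk | hk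
        · exact mul_nonneg_of_nonpos_of_nonpos hk (by omega)
        · exact mul_nonneg hk.le (by omega)
      exact_mod_cast this
    have h3 := hψ0 (ε * (a * k))
    positivity

end Pool.Agent.Helper47.Mimic
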