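import Pool.Agent.Helper47.Mimic.Defs
import Pool.Agent.Helper47.Mimic.Sine
import Pool.Agent.Helper47.Mimic.Witness
import Pool.Agent.Helper47.Mimic.Tensor

/-!
# No mimicry above bandwidth `(1-a)/a`
-/

set_option autoImplicit false

universe v

namespace Pool.Agent.Helper47.Mimic

open MeasureTheory FourierTransform

theorem not_admits (a B : ℝ) (ha : 0 < a) (hB : 0 < B) (h : 1 < a * (1 + B)) :
    ¬ AdmitsMimicry.{v} a B := by
  rintro ⟨Ω, mΩ, P, hP, u, -, hlat, hmim⟩
  obtain ⟨W, hWint, ⟨Φ, hΦ0, hΦ⟩, hWlat, α, β, f, hα, hβ, hf, hneg⟩ := exists_witness a B ha hB h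
  obtain ⟨n, hn, hI⟩ := exists_neg_sine W hWint α β hα hβ f hf hneg
  obtain ⟨η, hη⟩ := exists_tensor (𝓕⁻ Φ) n
  have hη' : ∀ x, η x = ((∏ i, W (x i) : ℝ) : ℂ) := by
    intro x
    rw [hη]
    push_cast
    apply Finset.prod_congr rfl
    intro i _
    exact (hΦ (x i)).symm
  have hsupp : ∀ ξ : Fin n → ℝ, (∃ i, B < |ξ i|) → fourierT η ξ = 0 := by
    rintro ξ ⟨i, hi⟩
    have h1 := fourierT_tensor (𝓕⁻ Φ) Φ rfl ξ
    unfold fourierT
    simp_rw [hη]
    rw [h1]
    exact Finset.prod_eq_zero (Finset.mem_univ i) (hΦ0 _ hi)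
  have hm := hmim n hn η hsupp
  -- right-hand side
  have hR : ∫ x : Fin n → ℝ, η x * (sineCorrelation x : ℂ) =
      ((∫ x : Fin n → ℝ, (∏ i, W (x i)) * sineCorrelation x : ℝ) : ℂ) := by
    rw [← integral_complex_ofReal]
    congr 1
    ext x
    rw [hη']
    push_cast
    ring
  -- left-hand side
  classical
  set g : Ω → ℝ := fun ω => ∑' j : Fin n ↪ ℕ,
    if ∀ i, ω ∈ u.present (j i) then ∏ i, W (u.pos (j i) ω) else 0 with hg
  have hL : ∀ ω, u.sumDistinct η ω = ((g ω : ℝ) : ℂ) := by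
    intro ω
    unfold PointProcess.sumDistinct
    rw [hg, Complex.ofReal_tsum]
    apply tsum_congr
    intro j
    by_cases hj : ∀ i, ω ∈ u.present (j i)
    · rw [if_pos hj, if_pos hj, hη']
    · rw [if_neg hj, if_neg hj, Complex.ofReal_zero]
  have hg0 : 0 ≤ ∫ ω, g ω ∂P := by
    apply integral_nonneg_of_ae
    filter_upwards [hlat] with ω hω
    rw [hg]
    simp only [Pi.zero_apply]
    apply tsum_nonneg
    intro j
    split_ifs with hj
    · apply Finset.prod_nonneg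
      intro i _
      obtain ⟨k, hk⟩ := hω (j i) (hj i)
      rw [hk]
      exact hWlat k
    · exact le_refl _
  simp_rw [hL] at hm
  rw [integral_complex_ofReal, hR] at hm
  have hm' : ∫ ω, g ω ∂P = ∫ x : Fin n → ℝ, (∏ i, W (x i)) * sineCorrelation x := by
    exact_mod_cast hm
  linarith

end Pool.Agent.Helper47.Mimic
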