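import Pool.Agent.Helper47.Mimic.Zeros

/-!
# The negative integral
-/

set_option autoImplicit false

namespace Pool.Agent.Helper47.Mimic

open MeasureTheory Filter Topology

lemma kk_continuous (p l : ℕ) : Continuous (kk (1 / ((l : ℝ) + 2)) (cc p l)) := by
  have h1 := (kk_isRep (1 / ((l : ℝ) + 2)) (cc p l) (by positivity)).continuous
  have h2 := Complex.continuous_re.comp h1
  simpa [Function.comp_def] using h2

lemma FF_continuous (p l : ℕ) : Continuous (FF p l) := by
  unfold FF
  exact (GG_continuous p l).mul ((kk_continuous p l).mul (HH_continuous p l))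

lemma FF_bound (p l : ℕ) : ∃ C, ∀ y, |FF p l y| ≤ C := by
  obtain ⟨C, hC⟩ := (kk_isRep (1 / ((l : ℝ) + 2)) (cc p l) (by positivity)).bounded
  refine ⟨C, fun y => ?_⟩
  have h1 := hC y
  rw [Complex.norm_real, Real.norm_eq_abs] at h1
  unfold FF
  rw [abs_mul, abs_mul]
  have h2 := GG_abs p l y
  have h3 := HH_abs p l y
  have h4 := abs_nonneg (GG p l y)
  have h5 := abs_nonneg (HH p l y)
  have h6 := abs_nonneg (kk (1 / ((l : ℝ) + 2)) (cc p l) y)
  calc _ ≤ 1 * (|kk (1 / ((l : ℝ) + 2)) (cc p l) y| * 1) := by gcongr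
    _ ≤ C := by linarith

lemma FF_decay (p l : ℕ) (y : ℝ) (hy : 1 ≤ |y|) : y ^ 2 * |FF p l y| ≤ 1 := by
  have h1 := FF_identity p l y
  have h2 := PP_abs p l y
  have hc := cc_pos p l
  have hc1 := cc_le_one p l
  have hy2 : 1 ≤ y ^ 2 := by
    rw [← sq_abs]; nlinarith
  have h3 : |(4 * y ^ 2 - cc p l ^ 2) * FF p l y| ≤ 1 := by
    rw [h1, abs_mul, abs_neg, abs_of_pos (show 0 < 2 * cc p l / Real.pi by positivity)]
    have : 2 * cc p l / Real.pi ≤ 1 := by
      rw [div_le_one Real.pi_pos]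
      linarith [Real.pi_gt_three]
    have h4 := abs_nonneg (PP p l y)
    calc _ ≤ 1 * (1 : ℝ) := by gcongr
      _ = 1 := by norm_num
  have h5 : 0 ≤ 4 * y ^ 2 - cc p l ^ 2 := by nlinarith
  rw [abs_mul, abs_of_nonneg h5] at h3
  have h6 := abs_nonneg (FF p l y)
  have h7 : y ^ 2 ≤ 4 * y ^ 2 - cc p l ^ 2 := by nlinarith
  calc _ ≤ (4 * y ^ 2 - cc p l ^ 2) * |FF p l y| := by gcongr
    _ ≤ 1 := h3

lemma FF_integrable (p l : ℕ) : Integrable fun y : ℝ => (1 + y ^ 2) * FF p l y ^ 2 := by
  obtain ⟨C, hC⟩ := FF_bound p l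
  have hC0 : 0 ≤ C := le_trans (abs_nonneg _) (hC 0)
  apply (integrable_inv_one_add_sq.const_mul (4 * C ^ 2 + 4)).mono'
  · apply Continuous.aestronglyMeasurable
    have := FF_continuous p l
    fun_prop
  · filter_upwards with y
    have hpos : 0 < 1 + y ^ 2 := by positivity
    rw [Real.norm_eq_abs, abs_of_nonneg (by positivity), ← div_eq_mul_inv, le_div_iff₀ hpos]
    rcases le_total (|y|) 1 with hy | hy
    · have h1 : y ^ 2 ≤ 1 := by rw [← sq_abs]; nlinarith [abs_nonneg y]
      have h2 : FF p l y ^ 2 ≤ C ^ 2 := by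
        rw [← sq_abs]
        exact pow_le_pow_left₀ (abs_nonneg _) (hC y) 2
      calc (1 + y ^ 2) * FF p l y ^ 2 * (1 + y ^ 2) ≤ (1 + 1) * C ^ 2 * (1 + 1) := by gcongr
        _ ≤ _ := by nlinarith
    · have h1 : 1 ≤ y ^ 2 := by rw [← sq_abs]; nlinarith
      have h2 := FF_decay p l y hy
      have h3 : (y ^ 2 * |FF p l y|) ^ 2 ≤ 1 := by
        have : 0 ≤ y ^ 2 * |FF p l y| := by positivity
        nlinarith
      have h4 : (y ^ 2 * |FF p l y|) ^ 2 = (y ^ 2) ^ 2 * FF p l y ^ 2 := by
        rw [mul_pow, sq_abs]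
      rw [h4] at h3
      calc (1 + y ^ 2) * FF p l y ^ 2 * (1 + y ^ 2)
          ≤ (y ^ 2 + y ^ 2) * FF p l y ^ 2 * (y ^ 2 + y ^ 2) := by gcongr
        _ = 4 * ((y ^ 2) ^ 2 * FF p l y ^ 2) := by ring
        _ ≤ 4 * 1 := by gcongr
        _ ≤ _ := by nlinarith

lemma FF_sq_integrable (p l : ℕ) : Integrable fun y : ℝ => FF p l y ^ 2 := by
  apply (FF_integrable p l).mono'
  · apply Continuous.aestronglyMeasurable
    have := FF_continuous p l
    fun_prop
  · filter_upwards with y
    rw [Real.norm_eq_abs, abs_of_nonneg (by positivity)]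
    nlinarith [sq_nonneg (FF p l y), sq_nonneg y, mul_nonneg (sq_nonneg y) (sq_nonneg (FF p l y))]

lemma FF_sq_mul_integrable (p l : ℕ) : Integrable fun y : ℝ => y ^ 2 * FF p l y ^ 2 := by
  have := (FF_integrable p l).sub (FF_sq_integrable p l)
  refine this.congr ?_
  filter_upwards with y
  simp only [Pi.sub_apply]
  ring

lemma FF_integral_zero (p l : ℕ) :
    ∫ y : ℝ, (4 * y ^ 2 - cc p l ^ 2) * FF p l y ^ 2 = 0 := by
  have hc := cc_pos p l
  have hc1 := cc_le_one p l
  have hpi := Real.pi_gt_three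
  have hpi0 : Real.pi ≠ 0 := Real.pi_ne_zero
  set c := cc p l with hcdef
  set q : ℝ → ℝ := fun z => (c / Real.pi ^ 2) * (PP p l (z + c / 2) ^ 2 / z) with hq
  have hcpi : c / Real.pi ^ 2 ≤ 1 := by
    rw [div_le_one (by positivity)]
    nlinarith
  have hP1 : ∀ z, PP p l z ^ 2 ≤ 1 := by
    intro z
    rw [← sq_abs]
    have := PP_abs p l z
    have := abs_nonneg (PP p l z)
    nlinarith
  apply integral_telescope q _ (c / 2) _ 1
  · intro z
    by_cases hz : z = 0
    · simp [hq, hz]
    · have hz' : 0 < |z| := abs_pos.2 hz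
      rw [hq]
      beta_reduce
      rw [abs_mul, abs_of_pos (show 0 < c / Real.pi ^ 2 by positivity), abs_div, abs_pow]
      have h1 : |PP p l (z + c / 2)| ^ 2 ≤ Real.pi * |z| := by
        have h2 := PP_half p l z
        have h3 := PP_abs p l (z + c / 2)
        have h4 := abs_nonneg (PP p l (z + c / 2))
        rw [← hcdef] at h2
        nlinarith
      calc c / Real.pi ^ 2 * (|PP p l (z + c / 2)| ^ 2 / |z|)
          ≤ 1 / Real.pi ^ 2 * (Real.pi * |z| / |z|) := by gcongr
        _ = 1 / Real.pi := by field_simp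
        _ ≤ 1 := by
            rw [div_le_one Real.pi_pos]
            linarith
  · intro z
    by_cases hz : z = 0
    · simp [hz]
    · have hz' : 0 < |z| := abs_pos.2 hz
      rw [hq]
      beta_reduce
      rw [abs_mul, abs_of_pos (show 0 < c / Real.pi ^ 2 by positivity), abs_div,
        abs_of_nonneg (sq_nonneg (PP p l (z + c / 2)))]
      have := hP1 (z + c / 2)
      calc |z| * (c / Real.pi ^ 2 * (PP p l (z + c / 2) ^ 2 / |z|))
          = c / Real.pi ^ 2 * PP p l (z + c / 2) ^ 2 := by field_simp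
        _ ≤ 1 * 1 := by gcongr
        _ = 1 := by norm_num
  · have h1 := ((FF_sq_mul_integrable p l).const_mul 4).sub ((FF_sq_integrable p l).const_mul (c ^ 2))
    refine h1.congr ?_
    filter_upwards with y
    simp only [Pi.sub_apply]
    ring
  · have hne1 : ∀ᵐ y : ℝ, y ≠ c / 2 := by
      rw [ae_iff]; simp
    have hne2 : ∀ᵐ y : ℝ, y ≠ -(c / 2) := by
      rw [ae_iff]; simp
    filter_upwards [hne1, hne2] with y hy1 hy2
    have h1 := FF_identity p l y
    rw [← hcdef] at h1
    have hy1' : y - c / 2 ≠ 0 := sub_ne_zero.2 hy1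
    have hy2' : y + c / 2 ≠ 0 := by
      intro h
      apply hy2
      linarith
    have h2 : 4 * y ^ 2 - c ^ 2 = 4 * ((y - c / 2) * (y + c / 2)) := by ring
    have h3 : PP p l (y - c / 2 + c / 2) = PP p l y := by congr 1; ring
    have h4 : PP p l (y + c / 2 + c / 2) = -PP p l y := by
      rw [← PP_shift]; congr 1; rw [← hcdef]; ring
    rw [hq]
    beta_reduce
    rw [h3, h4]
    have h5 : (4 * y ^ 2 - c ^ 2) ≠ 0 := by
      rw [h2]
      positivity
    have h6 : FF p l y = -(2 * c / Real.pi) * PP p l y / (4 * y ^ 2 - c ^ 2) := by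
      rw [eq_div_iff h5]
      linarith
    rw [h6, h2]
    have e1 : (c / Real.pi ^ 2) * (PP p l y ^ 2 / (y - c / 2)) -
        (c / Real.pi ^ 2) * ((-PP p l y) ^ 2 / (y + c / 2)) =
        (c / Real.pi ^ 2) * PP p l y ^ 2 *
          (((y + c / 2) - (y - c / 2)) / ((y - c / 2) * (y + c / 2))) := by
      rw [neg_sq, ← mul_sub, div_sub_div _ _ hy1' hy2']
      ring
    have e2 : (y + c / 2) - (y - c / 2) = c := by ring
    rw [e1, e2]
    have h7 : (y - c / 2) * (y + c / 2) ≠ 0 := mul_ne_zero hy1' hy2'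
    generalize (y - c / 2) * (y + c / 2) = D at h7
    field_simp
    ring
  · have := PP_continuous p l
    apply Measurable.const_mul
    apply Measurable.div _ measurable_id
    exact (this.comp (by fun_prop : Continuous fun z : ℝ => z + c / 2)).measurable.pow_const 2

lemma FF_zero_ne (p l : ℕ) : FF p l 0 ≠ 0 := by
  intro h
  have h1 := FF_identity p l 0
  rw [h, mul_zero] at h1
  have hc := cc_pos p l
  have h2 : PP p l 0 = 0 := by
    have h3 : -(2 * cc p l / Real.pi) ≠ 0 := by
      have := Real.pi_pos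
      have : 0 < 2 * cc p l / Real.pi := by positivity
      linarith
    rcases mul_eq_zero.1 h1.symm with h4 | h4
    · exact absurd h4 h3
    · exact h4
  unfold PP at h2
  rw [Finset.prod_eq_zero_iff] at h2
  obtain ⟨i, hi, h5⟩ := h2
  rw [Finset.mem_range] at hi
  unfold sn at h5
  rw [mul_zero, zero_add, Real.sin_neg, neg_eq_zero] at h5
  have h6 : 0 < Real.sin (Real.pi * (2 * i + 1) / (2 * ((p : ℝ) + l + 2))) := by
    apply Real.sin_pos_of_pos_of_lt_pi
    · positivity
    · rw [div_lt_iff₀ (by positivity)]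
      have hi' : (i : ℝ) + 1 ≤ (p : ℝ) + l + 2 := by exact_mod_cast hi
      have := Real.pi_pos
      nlinarith
  linarith

lemma FF_integral_pos (p l : ℕ) : 0 < ∫ y : ℝ, FF p l y ^ 2 := by
  rw [integral_pos_iff_support_of_nonneg (fun y => sq_nonneg _) (FF_sq_integrable p l)]
  apply IsOpen.measure_pos
  · have : Continuous fun y => FF p l y ^ 2 := (FF_continuous p l).pow 2
    exact this.isOpen_support
  · exact ⟨0, by simpa using FF_zero_ne p l⟩

/-- The key negativity. -/
lemma FF_negative (p l : ℕ) (a : ℝ) (ha : cc p l < a) :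
    ∫ y : ℝ, (y ^ 2 - a ^ 2 / 4) * FF p l y ^ 2 < 0 := by
  have h1 := FF_integral_zero p l
  have h2 := FF_integral_pos p l
  have hc := cc_pos p l
  have h3 : ∀ y : ℝ, (y ^ 2 - a ^ 2 / 4) * FF p l y ^ 2 =
      (1 / 4) * ((4 * y ^ 2 - cc p l ^ 2) * FF p l y ^ 2) -
        ((a ^ 2 - cc p l ^ 2) / 4) * FF p l y ^ 2 := by
    intro y; ring
  simp_rw [h3]
  rw [integral_sub, integral_const_mul, integral_const_mul, h1]
  · have : 0 < (a ^ 2 - cc p l ^ 2) / 4 := by
      have : 0 < (a - cc p l) * (a + cc p l) := by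
        apply mul_pos <;> linarith
      linarith [show (a - cc p l) * (a + cc p l) = a ^ 2 - cc p l ^ 2 by ring]
    have := mul_pos this h2
    linarith
  · have h4 := ((FF_sq_mul_integrable p l).const_mul 4).sub
      ((FF_sq_integrable p l).const_mul (cc p l ^ 2))
    have h5 : Integrable fun y : ℝ => (4 * y ^ 2 - cc p l ^ 2) * FF p l y ^ 2 := by
      refine h4.congr ?_
      filter_upwards with y
      simp only [Pi.sub_apply]
      ring
    exact h5.const_mul _
  · exact (FF_sq_integrable p l).const_mul _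

end Pool.Agent.Helper47.Mimic
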