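import Mathlib

/-!
# Band-limited functions with continuous Fourier transform
-/

set_option autoImplicit false

namespace Pool.Agent.Helper47.Mimic

open MeasureTheory Filter Topology

/-- `f` is the inverse Fourier transform of a continuous function vanishing outside `[-r, r]`. -/
def IsRep (r : ℝ) (f : ℝ → ℂ) : Prop :=
  ∃ φ : ℝ → ℂ, Continuous φ ∧ (∀ ξ, r < |ξ| → φ ξ = 0) ∧
    ∀ x, f x = ∫ ξ : ℝ, Complex.exp (2 * Real.pi * (ξ * x) * Complex.I) * φ ξ

lemma rep_integrable {r : ℝ} {φ : ℝ → ℂ} (hφ : Continuous φ) (h0 : ∀ ξ, r < |ξ| → φ ξ = 0)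
    (x : ℝ) : Integrable fun ξ : ℝ => Complex.exp (2 * Real.pi * (ξ * x) * Complex.I) * φ ξ := by
  apply Continuous.integrable_of_hasCompactSupport (by fun_prop)
  apply HasCompactSupport.mul_left
  apply HasCompactSupport.of_support_subset_isCompact (isCompact_Icc (a := -r) (b := r))
  intro ξ hξ
  by_contra hcon
  apply hξ
  apply h0
  rw [Set.mem_Icc, ← abs_le, not_le] at hcon
  exact hcon

lemma IsRep.mono {r s : ℝ} {g : ℝ → ℂ} (h : IsRep r g) (hrs : r ≤ s) : IsRep s g := by
  obtain ⟨Φ, h0, h1, h2⟩ := h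
  exact ⟨Φ, h0, fun ξ hξ => h1 ξ (lt_of_le_of_lt hrs hξ), h2⟩

lemma IsRep.add {r : ℝ} {g h : ℝ → ℂ} (hg : IsRep r g) (hh : IsRep r h) :
    IsRep r (fun x => g x + h x) := by
  obtain ⟨Φ, c1, h1, h2⟩ := hg
  obtain ⟨Ψ, c2, h3, h4⟩ := hh
  refine ⟨fun ξ => Φ ξ + Ψ ξ, c1.add c2, fun ξ hξ => ?_, fun x => ?_⟩
  · beta_reduce
    rw [h1 ξ hξ, h3 ξ hξ, add_zero]
  · beta_reduce
    rw [h2, h4, ← integral_add (rep_integrable c1 h1 x) (rep_integrable c2 h3 x)]
    congr 1
    ext ξ
    ring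

lemma IsRep.const_mul {r : ℝ} {g : ℝ → ℂ} (hg : IsRep r g) (c : ℂ) :
    IsRep r (fun x => c * g x) := by
  obtain ⟨Φ, c1, h1, h2⟩ := hg
  refine ⟨fun ξ => c * Φ ξ, c1.const_mul c, fun ξ hξ => ?_, fun x => ?_⟩
  · beta_reduce
    rw [h1 ξ hξ, mul_zero]
  · beta_reduce
    rw [h2, ← integral_const_mul]
    congr 1
    ext ξ
    ring

lemma IsRep.exp_mul {r : ℝ} {g : ℝ → ℂ} (hg : IsRep r g) (ω : ℝ) :
    IsRep (r + |ω|) (fun x => Complex.exp (2 * Real.pi * (ω * x) * Complex.I) * g x) := by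
  obtain ⟨Φ, c1, h1, h2⟩ := hg
  refine ⟨fun ξ => Φ (ξ - ω), by fun_prop, fun ξ hξ => ?_, fun x => ?_⟩
  · apply h1
    have := abs_sub_abs_le_abs_sub ξ ω
    linarith
  · beta_reduce
    rw [h2, ← integral_const_mul, ← integral_sub_right_eq_self _ ω]
    congr 1
    ext ξ
    rw [← mul_assoc, ← Complex.exp_add]
    congr 2
    push_cast
    ring

lemma IsRep.shift {r : ℝ} {g : ℝ → ℂ} (hg : IsRep r g) (h : ℝ) :
    IsRep r (fun x => g (x - h)) := by
  obtain ⟨Φ, c1, h1, h2⟩ := hg
  refine ⟨fun ξ => Complex.exp (-(2 * Real.pi * (ξ * h) * Complex.I)) * Φ ξ, by fun_prop,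
    fun ξ hξ => ?_, fun x => ?_⟩
  · beta_reduce
    rw [h1 ξ hξ, mul_zero]
  · beta_reduce
    rw [h2]
    congr 1
    ext ξ
    rw [← mul_assoc (Complex.exp _), ← Complex.exp_add]
    congr 2
    push_cast
    ring

lemma IsRep.sin_mul {r : ℝ} {g : ℝ → ℂ} (hg : IsRep r g) (ω δ : ℝ) :
    IsRep (r + |ω|) (fun x => ((Real.sin (2 * Real.pi * ω * x + δ) : ℝ) : ℂ) * g x) := by
  have h1 := (hg.exp_mul ω).const_mul (-(Complex.I / 2) * Complex.exp (δ * Complex.I))
  have h2 := (hg.exp_mul (-ω)).const_mul ((Complex.I / 2) * Complex.exp (-(δ * Complex.I)))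
  rw [abs_neg] at h2
  have h4 := h1.add h2
  convert h4 using 2 with x
  have h5 : ((Real.sin (2 * Real.pi * ω * x + δ) : ℝ) : ℂ) =
      -(Complex.I / 2) * (Complex.exp (δ * Complex.I) *
        Complex.exp (2 * Real.pi * (ω * x) * Complex.I)) +
      (Complex.I / 2) * (Complex.exp (-(δ * Complex.I)) *
        Complex.exp (2 * Real.pi * ((-ω : ℝ) * x) * Complex.I)) := by
    rw [← Complex.exp_add, ← Complex.exp_add]
    push_cast
    rw [Complex.sin]
    set θ : ℂ := 2 * Real.pi * ω * x + δ with hθ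
    have e3 : (δ : ℂ) * Complex.I + 2 * Real.pi * (ω * x) * Complex.I = θ * Complex.I := by
      rw [hθ]; ring
    have e4 : -((δ : ℂ) * Complex.I) + 2 * Real.pi * (-ω * x) * Complex.I = -θ * Complex.I := by
      rw [hθ]; ring
    rw [e3, e4]
    ring
  rw [h5]
  ring

/-- Real form of the representation. -/
lemma IsRep.real_form {f : ℝ → ℝ} (hf : IsRep (1 / 2) (fun x => (f x : ℂ))) :
    ∃ α β : ℝ → ℝ, Continuous α ∧ Continuous β ∧ ∀ x, f x = ∫ ξ in (-1 / 2 : ℝ)..(1 / 2),
      (α ξ * Real.cos (2 * Real.pi * ξ * x) + β ξ * Real.sin (2 * Real.pi * ξ * x)) := by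
  obtain ⟨φ, c1, h1, h2⟩ := hf
  refine ⟨fun ξ => (φ ξ).re, fun ξ => -(φ ξ).im, by fun_prop, by fun_prop, fun x => ?_⟩
  have h3 := congrArg Complex.re (h2 x)
  rw [Complex.ofReal_re] at h3
  rw [h3, ← Complex.reCLM_apply, ← ContinuousLinearMap.integral_comp_comm _ (rep_integrable c1 h1 x)]
  have h4 : ∀ ξ : ℝ, Complex.reCLM (Complex.exp (2 * Real.pi * (ξ * x) * Complex.I) * φ ξ) =
      (φ ξ).re * Real.cos (2 * Real.pi * ξ * x) + -(φ ξ).im * Real.sin (2 * Real.pi * ξ * x) := by
    intro ξ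
    have : (2 * Real.pi * (ξ * x) * Complex.I : ℂ) = ((2 * Real.pi * ξ * x : ℝ) : ℂ) * Complex.I := by
      push_cast; ring
    rw [this, Complex.exp_mul_I, ← Complex.ofReal_cos, ← Complex.ofReal_sin]
    simp only [Complex.reCLM_apply, Complex.mul_re, Complex.add_re, Complex.ofReal_re,
      Complex.I_re, Complex.ofReal_im, Complex.I_im, Complex.add_im, Complex.mul_im]
    ring
  simp_rw [h4]
  rw [intervalIntegral.integral_of_le (by norm_num), ← integral_Icc_eq_integral_Ioc]
  symm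
  apply setIntegral_eq_integral_of_forall_compl_eq_zero
  intro ξ hξ
  rw [Set.mem_Icc, show (-1 / 2 : ℝ) = -(1 / 2) by norm_num, ← abs_le, not_le] at hξ
  rw [h1 ξ hξ]
  simp

/-- The kernel with two removed zeros. -/
noncomputable def kk (b c y : ℝ) : ℝ :=
  ∫ s in (0 : ℝ)..b, Real.cos (2 * Real.pi * s * y) * Real.sin (Real.pi * c * (b - s))

lemma kk_identity (b c y : ℝ) : (4 * y ^ 2 - c ^ 2) * kk b c y =
    (c / Real.pi) * (Real.cos (Real.pi * c * b) - Real.cos (2 * Real.pi * y * b)) := by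
  have hpi : Real.pi ≠ 0 := Real.pi_ne_zero
  rw [kk, ← intervalIntegral.integral_const_mul]
  have hd : ∀ s ∈ Set.uIcc 0 b, HasDerivAt (fun s : ℝ => (1 / Real.pi) *
      (2 * y * (Real.sin (Real.pi * c * (b - s)) * Real.sin (2 * Real.pi * s * y)) -
        c * (Real.cos (Real.pi * c * (b - s)) * Real.cos (2 * Real.pi * s * y))))
      ((4 * y ^ 2 - c ^ 2) *
        (Real.cos (2 * Real.pi * s * y) * Real.sin (Real.pi * c * (b - s)))) s := by
    intro s _
    have hu : HasDerivAt (fun s : ℝ => Real.pi * c * (b - s)) (Real.pi * c * (-1)) s := by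
      apply HasDerivAt.const_mul
      exact (hasDerivAt_id s).const_sub b
    have hv : HasDerivAt (fun s : ℝ => 2 * Real.pi * s * y) (2 * Real.pi * y) s := by
      have := (((hasDerivAt_id s).const_mul (2 * Real.pi)).mul_const y)
      simpa using this
    have h1 := (((hu.sin.mul hv.sin).const_mul (2 * y)).sub
      ((hu.cos.mul hv.cos).const_mul c)).const_mul (1 / Real.pi)
    refine HasDerivAt.congr_deriv (f := fun s : ℝ => (1 / Real.pi) *
      (2 * y * (Real.sin (Real.pi * c * (b - s)) * Real.sin (2 * Real.pi * s * y)) -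
        c * (Real.cos (Real.pi * c * (b - s)) * Real.cos (2 * Real.pi * s * y)))) h1 ?_
    have e1 : (1 / Real.pi) * Real.pi = 1 := by field_simp
    linear_combination ((4 * y ^ 2 - c ^ 2) * Real.cos (2 * Real.pi * s * y) *
      Real.sin (Real.pi * c * (b - s))) * e1
  rw [intervalIntegral.integral_eq_sub_of_hasDerivAt hd]
  · simp only [sub_self, mul_zero, Real.sin_zero, zero_mul, Real.cos_zero, one_mul, sub_zero,
      zero_sub, mul_one]
    have : 2 * Real.pi * b * y = 2 * Real.pi * y * b := by ring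
    rw [this]
    ring
  · apply Continuous.intervalIntegrable
    fun_prop

lemma kk_isRep (b c : ℝ) (hb : 0 < b) : IsRep b (fun y => (kk b c y : ℂ)) := by
  refine ⟨fun ξ => (((1 / 2) * Real.sin (Real.pi * c * max 0 (b - |ξ|)) : ℝ) : ℂ), by fun_prop,
    fun ξ hξ => ?_, fun y => ?_⟩
  · beta_reduce
    rw [max_eq_left (by linarith)]
    simp
  · have h1 : ∀ ξ : ℝ, Complex.exp (2 * Real.pi * (ξ * y) * Complex.I) *
        (((1 / 2) * Real.sin (Real.pi * c * max 0 (b - |ξ|)) : ℝ) : ℂ) =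
        ((Real.cos (2 * Real.pi * ξ * y) *
          ((1 / 2) * Real.sin (Real.pi * c * max 0 (b - |ξ|))) : ℝ) : ℂ) +
        ((Real.sin (2 * Real.pi * ξ * y) *
          ((1 / 2) * Real.sin (Real.pi * c * max 0 (b - |ξ|))) : ℝ) : ℂ) * Complex.I := by
      intro ξ
      have : (2 * Real.pi * (ξ * y) * Complex.I : ℂ) =
          ((2 * Real.pi * ξ * y : ℝ) : ℂ) * Complex.I := by
        push_cast; ring
      rw [this, Complex.exp_mul_I, ← Complex.ofReal_cos, ← Complex.ofReal_sin]
      push_cast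
      ring
    have hcs : HasCompactSupport (fun ξ : ℝ => (1 / 2) *
        Real.sin (Real.pi * c * max 0 (b - |ξ|))) := by
      apply HasCompactSupport.of_support_subset_isCompact (isCompact_Icc (a := -b) (b := b))
      intro ξ hξ
      by_contra hcon
      apply hξ
      rw [Set.mem_Icc, ← abs_le, not_le] at hcon
      beta_reduce
      rw [max_eq_left (by linarith)]
      simp
    have hi1 : Integrable fun ξ : ℝ => Real.cos (2 * Real.pi * ξ * y) *
          ((1 / 2) * Real.sin (Real.pi * c * max 0 (b - |ξ|))) := by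
      apply Continuous.integrable_of_hasCompactSupport (by fun_prop)
      exact hcs.mul_left
    have hi2 : Integrable fun ξ : ℝ => Real.sin (2 * Real.pi * ξ * y) *
          ((1 / 2) * Real.sin (Real.pi * c * max 0 (b - |ξ|))) := by
      apply Continuous.integrable_of_hasCompactSupport (by fun_prop)
      exact hcs.mul_left
    simp_rw [h1]
    rw [integral_add hi1.ofReal (hi2.ofReal.mul_const _), integral_mul_const,
      integral_complex_ofReal, integral_complex_ofReal]
    have hs0 : ∫ ξ : ℝ, Real.sin (2 * Real.pi * ξ * y) *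
          ((1 / 2) * Real.sin (Real.pi * c * max 0 (b - |ξ|))) = 0 := by
      have h3 := integral_neg_eq_self (fun ξ : ℝ => Real.sin (2 * Real.pi * ξ * y) *
          ((1 / 2) * Real.sin (Real.pi * c * max 0 (b - |ξ|)))) volume
      have h4 : ∀ ξ : ℝ, Real.sin (2 * Real.pi * -ξ * y) *
          ((1 / 2) * Real.sin (Real.pi * c * max 0 (b - |(-ξ)|))) =
          -(Real.sin (2 * Real.pi * ξ * y) *
          ((1 / 2) * Real.sin (Real.pi * c * max 0 (b - |ξ|)))) := by
        intro ξ
        rw [abs_neg]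
        have : 2 * Real.pi * -ξ * y = -(2 * Real.pi * ξ * y) := by ring
        rw [this, Real.sin_neg]
        ring
      simp_rw [h4] at h3
      rw [integral_neg] at h3
      linarith
    rw [hs0]
    simp only [Complex.ofReal_zero, zero_mul, add_zero]
    congr 1
    have h5 := integral_comp_abs (f := fun s : ℝ => Real.cos (2 * Real.pi * s * y) *
          ((1 / 2) * Real.sin (Real.pi * c * max 0 (b - s))))
    have h6 : ∀ ξ : ℝ, Real.cos (2 * Real.pi * |ξ| * y) = Real.cos (2 * Real.pi * ξ * y) := by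
      intro ξ
      rcases abs_choice ξ with h | h
      · rw [h]
      · rw [h]
        have : 2 * Real.pi * -ξ * y = -(2 * Real.pi * ξ * y) := by ring
        rw [this, Real.cos_neg]
    simp_rw [h6] at h5
    rw [h5, kk, intervalIntegral.integral_of_le hb.le, ← integral_const_mul]
    have h7 : ∫ s in Set.Ioi (0 : ℝ), 2 * (Real.cos (2 * Real.pi * s * y) *
          ((1 / 2) * Real.sin (Real.pi * c * max 0 (b - s)))) =
        ∫ s in Set.Ioc (0 : ℝ) b, 2 * (Real.cos (2 * Real.pi * s * y) *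
          ((1 / 2) * Real.sin (Real.pi * c * max 0 (b - s)))) := by
      apply setIntegral_eq_of_subset_of_forall_sdiff_eq_zero measurableSet_Ioi
      · intro s hs; exact hs.1
      · intro s hs
        have : b < s := by
          by_contra hcon
          exact hs.2 ⟨hs.1, not_lt.1 hcon⟩
        rw [max_eq_left (by linarith)]
        simp
    rw [h7]
    apply setIntegral_congr_fun measurableSet_Ioc
    intro s hs
    beta_reduce
    rw [max_eq_right (by linarith [hs.2])]
    ring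

lemma IsRep.continuous {r : ℝ} {g : ℝ → ℂ} (hg : IsRep r g) : Continuous g := by
  obtain ⟨φ, c1, h1, h2⟩ := hg
  have : g = fun x : ℝ => ∫ ξ : ℝ, Complex.exp (2 * Real.pi * (ξ * x) * Complex.I) * φ ξ := by
    ext x; exact h2 x
  rw [this]
  apply continuous_of_dominated (bound := fun ξ => ‖φ ξ‖)
  · intro x
    exact (rep_integrable c1 h1 x).aestronglyMeasurable
  · intro x
    filter_upwards with ξ
    rw [norm_mul]
    have : (2 * Real.pi * (ξ * x) * Complex.I : ℂ) =
        ((2 * Real.pi * (ξ * x) : ℝ) : ℂ) * Complex.I := by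
      push_cast; ring
    rw [this, Complex.norm_exp_ofReal_mul_I, one_mul]
  · have := (rep_integrable c1 h1 0).norm
    simpa using this
  · filter_upwards with ξ
    fun_prop

lemma IsRep.bounded {r : ℝ} {g : ℝ → ℂ} (hg : IsRep r g) : ∃ C, ∀ x, ‖g x‖ ≤ C := by
  obtain ⟨φ, c1, h1, h2⟩ := hg
  refine ⟨∫ ξ, ‖φ ξ‖, fun x => ?_⟩
  rw [h2]
  apply norm_integral_le_of_norm_le
  · have := (rep_integrable c1 h1 0).norm
    simpa using this
  · filter_upwards with ξ
    rw [norm_mul]
    have : (2 * Real.pi * (ξ * x) * Complex.I : ℂ) =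
        ((2 * Real.pi * (ξ * x) : ℝ) : ℂ) * Complex.I := by
      push_cast; ring
    rw [this, Complex.norm_exp_ofReal_mul_I, one_mul]

end Pool.Agent.Helper47.Mimic
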