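import Pool.Agent.Helper47.Mimic.Rep

/-!
# The extremal function
-/

set_option autoImplicit false

namespace Pool.Agent.Helper47.Mimic

open MeasureTheory Filter Topology

/-- If `h(y) = q(y - d) - q(y + d)` with `q` bounded and tending to `0` at `±∞`, then `∫ h = 0`. -/
lemma integral_telescope (q h : ℝ → ℝ) (d : ℝ) (hqm : Measurable q) (M : ℝ)
    (hqb : ∀ z, |q z| ≤ M) (hq0 : ∀ z, |z| * |q z| ≤ 1)
    (hh : Integrable h) (hqh : ∀ᵐ y, h y = q (y - d) - q (y + d)) : ∫ y, h y = 0 := by
  have hqi : ∀ u v : ℝ, IntervalIntegrable q volume u v := by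
    intro u v
    apply (intervalIntegrable_const (c := M)).mono_fun hqm.aestronglyMeasurable
    filter_upwards with z
    rw [Real.norm_eq_abs, Real.norm_eq_abs]
    exact (hqb z).trans (le_abs_self M)
  have h1 : Tendsto (fun R : ℝ => ∫ y in (-R)..R, h y) atTop (𝓝 (∫ y, h y)) :=
    intervalIntegral_tendsto_integral hh tendsto_neg_atTop_atBot tendsto_id
  have h2 : ∀ R : ℝ, ∫ y in (-R)..R, h y =
      (∫ y in (-R - d)..(-R + d), q y) - ∫ y in (R - d)..(R + d), q y := by
    intro R
    have e1 : ∫ y in (-R)..R, h y = ∫ y in (-R)..R, (q (y - d) - q (y + d)) := by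
      apply intervalIntegral.integral_congr_ae
      filter_upwards [hqh] with y hy _
      exact hy
    rw [e1, intervalIntegral.integral_sub]
    · rw [intervalIntegral.integral_comp_sub_right (fun y => q y) d,
        intervalIntegral.integral_comp_add_right (fun y => q y) d]
      have e2 := intervalIntegral.integral_add_adjacent_intervals (hqi (-R - d) (-R + d))
        (hqi (-R + d) (R - d))
      have e3 := intervalIntegral.integral_add_adjacent_intervals (hqi (-R + d) (R - d))
        (hqi (R - d) (R + d))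
      linarith
    · have := (hqi (-R - d) (R - d)).comp_sub_right d
      simpa using this
    · have := (hqi (-R + d) (R + d)).comp_add_right d
      simpa using this
  have h3 : Tendsto (fun R : ℝ => ∫ y in (-R)..R, h y) atTop (𝓝 0) := by
    rw [tendsto_zero_iff_abs_tendsto_zero]
    have hlim : Tendsto (fun R : ℝ => 4 * |d| * (1 / (R - |d|))) atTop (𝓝 0) := by
      have : Tendsto (fun R : ℝ => 1 / (R - |d|)) atTop (𝓝 0) := by
        simp_rw [one_div]
        exact tendsto_inv_atTop_zero.comp (tendsto_atTop_add_const_right _ _ tendsto_id)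
      simpa using this.const_mul (4 * |d|)
    apply squeeze_zero' (g := fun R : ℝ => 4 * |d| * (1 / (R - |d|))) _ _ hlim
    · filter_upwards with R
      exact abs_nonneg _
    · filter_upwards [eventually_gt_atTop (|d|)] with R hR
      simp only [Function.comp]
      rw [h2]
      have hRd : 0 < R - |d| := by linarith
      have hb : ∀ z, R - |d| ≤ |z| → ‖q z‖ ≤ 1 / (R - |d|) := by
        intro z hz
        rw [Real.norm_eq_abs, le_div_iff₀ hRd]
        have := hq0 z
        have := abs_nonneg (q z)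
        nlinarith
      have hd := abs_le.1 (le_refl |d|)
      have b1 : ‖∫ y in (-R - d)..(-R + d), q y‖ ≤ 1 / (R - |d|) * |(-R + d) - (-R - d)| := by
        apply intervalIntegral.norm_integral_le_of_norm_le_const
        intro z hz
        apply hb
        have hz2 : z ≤ -R + |d| := by
          rcases Set.mem_uIoc.1 hz with h | h
          · linarith [h.2, hd.2]
          · linarith [h.2, hd.1]
        have := neg_le_abs z
        linarith
      have b2 : ‖∫ y in (R - d)..(R + d), q y‖ ≤ 1 / (R - |d|) * |(R + d) - (R - d)| := by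
        apply intervalIntegral.norm_integral_le_of_norm_le_const
        intro z hz
        apply hb
        have hz2 : R - |d| ≤ z := by
          rcases Set.mem_uIoc.1 hz with h | h
          · linarith [h.1, hd.2]
          · linarith [h.1, hd.1]
        have := le_abs_self z
        linarith
      have e4 : |(-R + d) - (-R - d)| = 2 * |d| := by
        rw [show (-R + d) - (-R - d) = 2 * d by ring, abs_mul]; norm_num
      have e5 : |(R + d) - (R - d)| = 2 * |d| := by
        rw [show (R + d) - (R - d) = 2 * d by ring, abs_mul]; norm_num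
      rw [e4] at b1
      rw [e5] at b2
      rw [Real.norm_eq_abs] at b1 b2
      calc _ ≤ |∫ y in (-R - d)..(-R + d), q y| + |∫ y in (R - d)..(R + d), q y| :=
            abs_sub _ _
        _ ≤ _ := by linarith
  exact tendsto_nhds_unique h1 h3

/-- The factor with zeros at `c (i + 1/2) + L ℤ`, where `L = l + 2`, `n = p + l + 2`,
`c = L / n`. -/
noncomputable def sn (p l : ℕ) (i : ℕ) (y : ℝ) : ℝ :=
  Real.sin (2 * Real.pi * (1 / (2 * ((l : ℝ) + 2))) * y +
    -(Real.pi * (2 * i + 1) / (2 * ((p : ℝ) + l + 2))))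

noncomputable def cc (p l : ℕ) : ℝ := ((l : ℝ) + 2) / ((p : ℝ) + l + 2)

noncomputable def PP (p l : ℕ) (y : ℝ) : ℝ := ∏ i ∈ Finset.range (p + l + 2), sn p l i y

noncomputable def GG (p l : ℕ) (y : ℝ) : ℝ := ∏ i ∈ Finset.range p, sn p l (i + 1) y

noncomputable def HH (p l : ℕ) (y : ℝ) : ℝ := ∏ j ∈ Finset.range l, sn p l (p + j + 1) y

noncomputable def FF (p l : ℕ) (y : ℝ) : ℝ :=
  GG p l y * (kk (1 / ((l : ℝ) + 2)) (cc p l) y * HH p l y)

lemma cc_pos (p l : ℕ) : 0 < cc p l := by unfold cc; positivity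

lemma cc_le_one (p l : ℕ) : cc p l ≤ 1 := by
  unfold cc
  rw [div_le_one (by positivity)]
  have : (0 : ℝ) ≤ p := by positivity
  linarith

lemma sn_abs (p l i : ℕ) (y : ℝ) : |sn p l i y| ≤ 1 := Real.abs_sin_le_one _

lemma prod_abs_le_one {ι : Type*} (s : Finset ι) (f : ι → ℝ) (h : ∀ i ∈ s, |f i| ≤ 1) :
    |∏ i ∈ s, f i| ≤ 1 := by
  rw [Finset.abs_prod]
  exact Finset.prod_le_one (fun i _ => abs_nonneg _) h

lemma PP_abs (p l : ℕ) (y : ℝ) : |PP p l y| ≤ 1 := prod_abs_le_one _ _ fun _ _ => sn_abs _ _ _ _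
lemma GG_abs (p l : ℕ) (y : ℝ) : |GG p l y| ≤ 1 := prod_abs_le_one _ _ fun _ _ => sn_abs _ _ _ _
lemma HH_abs (p l : ℕ) (y : ℝ) : |HH p l y| ≤ 1 := prod_abs_le_one _ _ fun _ _ => sn_abs _ _ _ _

lemma sn_continuous (p l i : ℕ) : Continuous (sn p l i) := by unfold sn; fun_prop
lemma GG_continuous (p l : ℕ) : Continuous (GG p l) :=
  continuous_finsetProd _ fun i _ => sn_continuous p l (i + 1)
lemma HH_continuous (p l : ℕ) : Continuous (HH p l) :=
  continuous_finsetProd _ fun i _ => sn_continuous p l (p + i + 1)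
lemma PP_continuous (p l : ℕ) : Continuous (PP p l) :=
  continuous_finsetProd _ fun i _ => sn_continuous p l i

lemma sn_shift (p l i : ℕ) (y : ℝ) : sn p l (i + 1) (y + cc p l) = sn p l i y := by
  unfold sn cc
  congr 1
  have h1 : (l : ℝ) + 2 ≠ 0 := by positivity
  have h2 : (p : ℝ) + l + 2 ≠ 0 := by positivity
  push_cast
  field_simp
  ring

lemma sn_last (p l : ℕ) (y : ℝ) : sn p l 0 (y + cc p l) = -sn p l (p + l + 1) y := by
  unfold sn cc
  rw [← Real.sin_add_pi]
  congr 1
  have h1 : (l : ℝ) + 2 ≠ 0 := by positivity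
  have h2 : (p : ℝ) + l + 2 ≠ 0 := by positivity
  push_cast
  field_simp
  ring

lemma PP_shift (p l : ℕ) (y : ℝ) : PP p l (y + cc p l) = -PP p l y := by
  unfold PP
  rw [Finset.prod_range_succ' (fun i => sn p l i (y + cc p l)) (p + l + 1),
    Finset.prod_range_succ (fun i => sn p l i y) (p + l + 1)]
  simp_rw [sn_shift]
  rw [sn_last]
  ring

lemma sn_zero_half (p l : ℕ) (z : ℝ) :
    |sn p l 0 (z + cc p l / 2)| ≤ Real.pi * |z| := by
  unfold sn cc
  have h1 : (l : ℝ) + 2 ≠ 0 := by positivity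
  have h2 : (p : ℝ) + l + 2 ≠ 0 := by positivity
  have e : 2 * Real.pi * (1 / (2 * ((l : ℝ) + 2))) * (z + ((l : ℝ) + 2) / ((p : ℝ) + l + 2) / 2) +
      -(Real.pi * (2 * (0 : ℕ) + 1) / (2 * ((p : ℝ) + l + 2))) = Real.pi * z / ((l : ℝ) + 2) := by
    push_cast
    field_simp
    ring
  rw [e]
  calc |Real.sin (Real.pi * z / ((l : ℝ) + 2))| ≤ |Real.pi * z / ((l : ℝ) + 2)| :=
        Real.abs_sin_le_abs
    _ ≤ Real.pi * |z| := by
        have h3 : (0 : ℝ) ≤ l := by positivity
        rw [abs_div, abs_mul, abs_of_pos Real.pi_pos,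
          abs_of_pos (show (0 : ℝ) < (l : ℝ) + 2 by positivity)]
        apply div_le_self (by positivity)
        linarith

lemma PP_half (p l : ℕ) (z : ℝ) : |PP p l (z + cc p l / 2)| ≤ Real.pi * |z| := by
  unfold PP
  rw [Finset.prod_range_succ', abs_mul]
  calc _ ≤ 1 * |sn p l 0 (z + cc p l / 2)| := by
        apply mul_le_mul_of_nonneg_right _ (abs_nonneg _)
        exact prod_abs_le_one _ _ fun _ _ => sn_abs _ _ _ _
    _ ≤ _ := by rw [one_mul]; exact sn_zero_half p l z

lemma sn_mul (p l : ℕ) (y : ℝ) : sn p l 0 y * sn p l (p + l + 1) y =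
    -(1 / 2) * (Real.cos (Real.pi * cc p l * (1 / ((l : ℝ) + 2))) -
      Real.cos (2 * Real.pi * y * (1 / ((l : ℝ) + 2)))) := by
  have h1 : (l : ℝ) + 2 ≠ 0 := by positivity
  have h2 : (p : ℝ) + l + 2 ≠ 0 := by positivity
  set A : ℝ := Real.pi * y / ((l : ℝ) + 2) with hA
  set B : ℝ := Real.pi / (2 * ((p : ℝ) + l + 2)) with hB
  have e1 : sn p l 0 y = Real.sin (A - B) := by
    unfold sn
    congr 1
    rw [hA, hB]
    push_cast
    field_simp
    ring
  have e2 : sn p l (p + l + 1) y = -Real.sin (A + B) := by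
    unfold sn
    rw [← Real.sin_sub_pi]
    congr 1
    rw [hA, hB]
    push_cast
    field_simp
    ring
  have e3 : Real.pi * cc p l * (1 / ((l : ℝ) + 2)) = 2 * B := by
    rw [hB, cc]
    field_simp
  have e4 : 2 * Real.pi * y * (1 / ((l : ℝ) + 2)) = 2 * A := by
    rw [hA]
    field_simp
  rw [e1, e2, e3, e4, Real.sin_sub, Real.sin_add, Real.cos_two_mul, Real.cos_two_mul]
  have h5 := Real.sin_sq_add_cos_sq A
  have h6 := Real.sin_sq_add_cos_sq B
  linear_combination (-(Real.cos B) ^ 2) * h5 + (Real.cos A ^ 2) * h6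

lemma FF_identity (p l : ℕ) (y : ℝ) :
    (4 * y ^ 2 - cc p l ^ 2) * FF p l y = -(2 * cc p l / Real.pi) * PP p l y := by
  have h1 := kk_identity (1 / ((l : ℝ) + 2)) (cc p l) y
  have h2 : PP p l y = (sn p l 0 y * sn p l (p + l + 1) y) * (GG p l y * HH p l y) := by
    unfold PP GG HH
    rw [Finset.prod_range_succ, Finset.prod_range_succ', Finset.prod_range_add]
    have : ∀ j, sn p l (p + j + 1) y = sn p l (p + j + 1) y := fun _ => rfl
    ring
  rw [h2, sn_mul]
  have h3 : (4 * y ^ 2 - cc p l ^ 2) * FF p l y =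
      ((4 * y ^ 2 - cc p l ^ 2) * kk (1 / ((l : ℝ) + 2)) (cc p l) y) * (GG p l y * HH p l y) := by
    unfold FF
    ring
  rw [h3, h1]
  ring

end Pool.Agent.Helper47.Mimic
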